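import Mathlib

set_option autoImplicit false

/-!
# General E-unification: the transformation system 𝒯 with eager variable elimination

Definitions used in the statement of the main theorem.
-/

namespace Pool.Agent.TH260.EU

universe u

/-- First-order terms over a signature with function symbols `F` and arities `ar`; the variables
are the natural numbers. -/
inductive Term {F : Type u} (ar : F → ℕ) : Type u
  | var (x : ℕ) : Term ar
  | app (f : F) (ts : Fin (ar f) → Term ar) : Term ar

variable {F : Type u} {ar : F → ℕ}

namespace Term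

/-- Application of a substitution to a term. -/
def subst (σ : ℕ → Term ar) : Term ar → Term ar
  | var x => σ x
  | app f ts => app f (fun i => (ts i).subst σ)

/-- The set of variables of a term. -/
def vars : Term ar → Finset ℕ
  | var x => {x}
  | app _ ts => Finset.univ.biUnion (fun i => (ts i).vars)

end Term

/-- Contexts, that is, terms with one hole. -/
inductive Ctx {F : Type u} (ar : F → ℕ) : Type u
  | hole : Ctx ar
  | arg (f : F) (i : Fin (ar f)) (ts : Fin (ar f) → Term ar) (C : Ctx ar) : Ctx ar

/-- `C.fill s` is the context `C` with the term `s` in its hole. So `C.fill s` is a term `u` with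
`u/β = s`, where `β` is the position of the hole, and `C.fill r` is `u[β ← r]`. -/
def Ctx.fill : Ctx ar → Term ar → Term ar
  | .hole, s => s
  | .arg f i ts C, s => Term.app f (Function.update ts i (C.fill s))

/-- `E`-equality: the congruence closed under substitution instances generated by the set of
equations `E`, that is, the relation `↔*_E`. -/
inductive EqE (E : Set (Term ar × Term ar)) : Term ar → Term ar → Prop
  | ax (l r : Term ar) (θ : ℕ → Term ar) : (l, r) ∈ E → EqE E (l.subst θ) (r.subst θ)
  | refl (s : Term ar) : EqE E s s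
  | symm (s t : Term ar) : EqE E s t → EqE E t s
  | trans (s t w : Term ar) : EqE E s t → EqE E t w → EqE E s w
  | cong (f : F) (ss ts : Fin (ar f) → Term ar) : (∀ i, EqE E (ss i) (ts i)) →
      EqE E (Term.app f ss) (Term.app f ts)

/-- A system: a finite multiset of equations, each one an unordered pair of terms. -/
abbrev Sys {F : Type u} (ar : F → ℕ) : Type u := Multiset (Sym2 (Term ar))

/-- The variable `x` occurs in the system `S`. -/
def Occurs (x : ℕ) (S : Sys ar) : Prop := ∃ e ∈ S, ∃ t ∈ e, x ∈ t.vars

/-- Application of a substitution to a system. -/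
def Sys.subst (σ : ℕ → Term ar) (S : Sys ar) : Sys ar := S.map (Sym2.map (Term.subst σ))

/-- `θ` is an `E`-unifier of the system `S`. -/
def IsUnifier (E : Set (Term ar × Term ar)) (θ : ℕ → Term ar) (S : Sys ar) : Prop :=
  ∀ s t : Term ar, s(s, t) ∈ S → EqE E (s.subst θ) (t.subst θ)

/-- `l ≐ r` is a variant of an equation in `E ∪ E⁻¹`, obtained by an injective renaming of
variables, and none of its variables is in `U`. -/
def FreshVariant (E : Set (Term ar × Term ar)) (U : Finset ℕ) (l r : Term ar) : Prop :=
  ∃ (l₀ r₀ : Term ar) (ρ : ℕ → ℕ), ((l₀, r₀) ∈ E ∨ (r₀, l₀) ∈ E) ∧ Function.Injective ρ ∧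
    l = l₀.subst (fun x => Term.var (ρ x)) ∧ r = r₀.subst (fun x => Term.var (ρ x)) ∧
    Disjoint U (l.vars ∪ r.vars)

/-- The system of the equations `ss i ≈ ts i`. -/
def argEqs {n : ℕ} (ss ts : Fin n → Term ar) : Sys ar :=
  (Finset.univ : Finset (Fin n)).val.map (fun i => s(ss i, ts i))

/-- The steps of eager derivations in `𝒯`. A state is a pair `(U, S)`, where `S` is the current
system and `U` is the finite set of all variables used so far (the variables to be avoided by
fresh variants).

* `triv`: Trivial.
* `dec`: Decomposition.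
* `ve`: Variable Elimination.
* `lpApp`: Lazy Paramodulation with a variant `l ≐ r` where `l = f(ls)` is not a variable; the
  equation `f(ts) ≈ f(ls)` is decomposed within the step.
* `lpVar`: Lazy Paramodulation with a variant `l ≐ r` where `l = z` is a variable.

The condition `∀ x, v = var x → x ∈ ...` of the last two rules is the restriction to eager
derivations: the equation `u ≈ v` to which Lazy Paramodulation is applied (`u` is not a variable)
is not of the form `x ≈ t` with `x ∉ Var(t)`. -/
inductive Step (E : Set (Term ar × Term ar)) : Finset ℕ × Sys ar → Finset ℕ × Sys ar → Prop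
  | triv (U : Finset ℕ) (S : Sys ar) (t : Term ar) :
      Step E (U, s(t, t) ::ₘ S) (U, S)
  | dec (U : Finset ℕ) (S : Sys ar) (f : F) (ss ts : Fin (ar f) → Term ar) :
      Step E (U, s(Term.app f ss, Term.app f ts) ::ₘ S) (U, argEqs ss ts + S)
  | ve (U : Finset ℕ) (S : Sys ar) (x : ℕ) (t : Term ar) (hx : x ∉ t.vars) (hS : Occurs x S) :
      Step E (U, s(Term.var x, t) ::ₘ S)
        (U, s(Term.var x, t) ::ₘ S.subst (Function.update Term.var x t))
  | lpApp (U : Finset ℕ) (S : Sys ar) (C : Ctx ar) (f : F) (ts ls : Fin (ar f) → Term ar)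
      (r v : Term ar) (hlr : FreshVariant E U (Term.app f ls) r)
      (heager : ∀ x, v = Term.var x → x ∈ (C.fill (Term.app f ts)).vars) :
      Step E (U, s(C.fill (Term.app f ts), v) ::ₘ S)
        (U ∪ ((Term.app f ls).vars ∪ r.vars), argEqs ts ls + s(C.fill r, v) ::ₘ S)
  | lpVar (U : Finset ℕ) (S : Sys ar) (C : Ctx ar) (f : F) (ts : Fin (ar f) → Term ar) (z : ℕ)
      (r v : Term ar) (hlr : FreshVariant E U (Term.var z) r)
      (heager : ∀ x, v = Term.var x → x ∈ (C.fill (Term.app f ts)).vars) :
      Step E (U, s(C.fill (Term.app f ts), v) ::ₘ S)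
        (U ∪ ((Term.var z : Term ar).vars ∪ r.vars),
          s(Term.app f ts, Term.var z) ::ₘ s(C.fill r, v) ::ₘ S)

/-- `S` is the solved system `{x ≈ t x | x ∈ X}`. -/
def IsSolved (S : Sys ar) (X : Finset ℕ) (t : ℕ → Term ar) : Prop :=
  S = X.val.map (fun x => s(Term.var x, t x)) ∧ ∀ x ∈ X, ∀ y ∈ X, x ∉ (t y).vars

/-- The substitution `[t x / x | x ∈ X]` of the solved system `{x ≈ t x | x ∈ X}`. -/
def solvedSubst (X : Finset ℕ) (t : ℕ → Term ar) (x : ℕ) : Term ar :=
  if x ∈ X then t x else Term.var x

end Pool.Agent.TH260.EU
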