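import Mathlib
import Pool.Agent.TH260.EU.Defs

set_option autoImplicit false

/-!
# A well-order on terms, strictly monotone in the arguments

Terms are written as words in Polish style, and the words are compared by the shortlex order.
-/

namespace Pool.Agent.TH260.EU

universe u

variable {F : Type u} {ar : F → ℕ}

/-- The word of a term. -/
def word : Term ar → List (ℕ ⊕ F)
  | .var x => [Sum.inl x]
  | .app f ts => Sum.inr f :: (List.ofFn (fun i => word (ts i))).flatten

/-- The well-order of the letters: variables come first. -/
def letLt : (ℕ ⊕ F) → (ℕ ⊕ F) → Prop := Sum.Lex (· < ·) WellOrderingRel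

instance : IsWellOrder (ℕ ⊕ F) letLt := inferInstanceAs (IsWellOrder (ℕ ⊕ F) (Sum.Lex _ _))

theorem flatten_inj {n : ℕ} (a b : Fin n → Term ar) (l m : List (ℕ ⊕ F))
    (h : ∀ i, ∀ (t : Term ar) (l m : List (ℕ ⊕ F)), word (a i) ++ l = word t ++ m →
      a i = t ∧ l = m)
    (heq : (List.ofFn (fun i => word (a i))).flatten ++ l =
      (List.ofFn (fun i => word (b i))).flatten ++ m) : a = b ∧ l = m := by
  induction n with
  | zero =>
    simp only [List.ofFn_zero, List.flatten_nil, List.nil_append] at heq
    exact ⟨funext fun i => i.elim0, heq⟩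
  | succ n ih =>
    simp only [List.ofFn_succ, List.flatten_cons, List.append_assoc] at heq
    obtain ⟨h0, heq'⟩ := h 0 _ _ _ heq
    obtain ⟨h1, h2⟩ := ih (fun i => a i.succ) (fun i => b i.succ) (fun i => h i.succ) heq'
    refine ⟨funext fun i => ?_, h2⟩
    refine Fin.cases h0 (fun j => ?_) i
    exact congrFun h1 j

theorem word_append_inj (s : Term ar) : ∀ (t : Term ar) (l m : List (ℕ ⊕ F)),
    word s ++ l = word t ++ m → s = t ∧ l = m := by
  induction s with
  | var x =>
    intro t l m h
    cases t with
    | var y =>
      simp only [word, List.cons_append, List.nil_append, List.cons.injEq, Sum.inl.injEq] at h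
      exact ⟨by rw [h.1], h.2⟩
    | app g ts => simp [word] at h
  | app f ss ih =>
    intro t l m h
    cases t with
    | var y => simp [word] at h
    | app g ts =>
      simp only [word, List.cons_append, List.cons.injEq, Sum.inr.injEq] at h
      obtain ⟨rfl, h⟩ := h
      obtain ⟨h1, h2⟩ := flatten_inj ss ts l m ih h
      exact ⟨by rw [h1], h2⟩

theorem word_injective : Function.Injective (word : Term ar → List (ℕ ⊕ F)) := by
  intro s t h
  exact (word_append_inj s t [] [] (by rw [h])).1

/-- The order on terms. -/
def tlt (s t : Term ar) : Prop := List.Shortlex letLt (word s) (word t)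

instance : IsWellOrder (Term ar) tlt where
  wf := InvImage.wf _ (List.Shortlex.wf (IsWellFounded.wf))
  trichotomous := by
    intro a b h1 h2
    have : Std.Trichotomous (List.Shortlex (letLt : (ℕ ⊕ F) → (ℕ ⊕ F) → Prop)) := inferInstance
    exact word_injective (this.trichotomous _ _ h1 h2)

/-- Terms are linearly ordered by `tlt`. -/
noncomputable instance instLinearOrderTerm : LinearOrder (Term ar) := IsWellOrder.linearOrder tlt

theorem lt_iff_tlt (s t : Term ar) : s < t ↔ tlt s t := Iff.rfl

theorem lt_iff_word (s t : Term ar) : s < t ↔ List.Shortlex letLt (word s) (word t) := Iff.rfl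

instance : WellFoundedLT (Term ar) where
  wf := (inferInstance : IsWellOrder (Term ar) tlt).wf

theorem lex_append {α : Type*} {r : α → α → Prop} {s s' : List α} (h : List.Lex r s s')
    (hl : s.length = s'.length) (t t' : List α) : List.Lex r (s ++ t) (s' ++ t') := by
  induction h with
  | nil => simp at hl
  | cons h ih => exact List.Lex.cons (ih (by simpa using hl))
  | rel h => exact List.Lex.rel h

theorem shortlex_append_same {α : Type*} {r : α → α → Prop} {s s' : List α}
    (h : List.Shortlex r s s') (t : List α) : List.Shortlex r (s ++ t) (s' ++ t) := by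
  rw [List.shortlex_def] at h ⊢
  rcases h with h | ⟨h1, h2⟩
  · left; simpa using h
  · right; exact ⟨by simpa using h1, lex_append h2 h1 t t⟩

/-- The reflexive closure of the shortlex order on words. -/
def wle (s t : List (ℕ ⊕ F)) : Prop := s = t ∨ List.Shortlex letLt s t

theorem wle_append {s s' t t' : List (ℕ ⊕ F)} (h : wle s s') (h' : wle t t') :
    wle (s ++ t) (s' ++ t') := by
  rcases h with rfl | h
  · rcases h' with rfl | h'
    · exact Or.inl rfl
    · exact Or.inr (List.Shortlex.append_left h' _)
  · rcases h' with rfl | h'
    · exact Or.inr (shortlex_append_same h _)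
    · right
      have h1 : List.Shortlex letLt (s ++ t) (s ++ t') := List.Shortlex.append_left h' _
      have h2 : List.Shortlex letLt (s ++ t') (s' ++ t') := shortlex_append_same h _
      rw [List.shortlex_def] at h1 h2 ⊢
      rcases h1 with h1 | ⟨h1, h1'⟩
      · rcases h2 with h2 | ⟨h2, h2'⟩
        · left; omega
        · left; omega
      · rcases h2 with h2 | ⟨h2, h2'⟩
        · left; omega
        · right
          refine ⟨by omega, ?_⟩
          rw [List.shortlex_def] at h
          rcases h with h | ⟨h, h''⟩
          · simp only [List.length_append] at h1 h2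
            omega
          · exact lex_append h'' h _ _

theorem wle_flatten {n : ℕ} (a b : Fin n → List (ℕ ⊕ F)) (h : ∀ i, wle (a i) (b i)) :
    wle (List.ofFn a).flatten (List.ofFn b).flatten := by
  induction n with
  | zero => simp only [List.ofFn_zero]; exact Or.inl rfl
  | succ n ih =>
    simp only [List.ofFn_succ, List.flatten_cons]
    exact wle_append (h 0) (ih _ _ (fun i => h i.succ))

theorem le_iff_wle (s t : Term ar) : s ≤ t ↔ wle (word s) (word t) := by
  rw [le_iff_lt_or_eq, wle, lt_iff_word, word_injective.eq_iff]
  exact or_comm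

theorem app_le_app (f : F) {ss ts : Fin (ar f) → Term ar} (h : ∀ i, ss i ≤ ts i) :
    Term.app f ss ≤ Term.app f ts := by
  rw [le_iff_wle]
  simp only [word]
  have := wle_append (Or.inl rfl : wle [Sum.inr f] [Sum.inr f])
    (wle_flatten (fun i => word (ss i)) (fun i => word (ts i))
      (fun i => (le_iff_wle _ _).1 (h i)))
  simpa using this

theorem app_lt_app (f : F) {ss ts : Fin (ar f) → Term ar} (h : ∀ i, ss i ≤ ts i)
    (i : Fin (ar f)) (hi : ss i < ts i) : Term.app f ss < Term.app f ts := by
  refine lt_of_le_of_ne (app_le_app f h) ?_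
  intro heq
  simp only [Term.app.injEq, heq_eq_eq, true_and] at heq
  rw [heq] at hi
  exact lt_irrefl _ hi

theorem word_length_pos (t : Term ar) : 0 < (word t).length := by
  cases t <;> simp [word]

theorem le_var {w : Term ar} {y : ℕ} (h : w ≤ Term.var y) : ∃ z, z ≤ y ∧ w = Term.var z := by
  rw [le_iff_wle] at h
  rcases h with h | h
  · exact ⟨y, le_rfl, word_injective h⟩
  · rw [List.shortlex_def] at h
    have h1 : (word (Term.var y : Term ar)).length = 1 := rfl
    rw [h1] at h
    have h2 := word_length_pos w
    rcases h with h | ⟨h, h'⟩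
    · omega
    · cases w with
      | var z =>
        simp only [word, List.lex_singleton_iff, letLt, Sum.lex_inl_inl] at h'
        exact ⟨z, h'.le, rfl⟩
      | app f ts =>
        simp only [word] at h'
        cases h' with
        | rel h' => simp [letLt] at h'

theorem var_le_var {y z : ℕ} (h : y ≤ z) : (Term.var y : Term ar) ≤ Term.var z := by
  rw [le_iff_wle]
  rcases h.eq_or_lt with rfl | h
  · exact Or.inl rfl
  · right
    simp only [word, List.shortlex_singleton_iff, letLt, Sum.lex_inl_inl]
    exact h

end Pool.Agent.TH260.EU
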