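import Mathlib
import Pool.Agent.TH260.EU.Order

set_option autoImplicit false

/-!
# Evaluation and the existence of plans

`ev E t σ w` says that `w` is a value of the pattern `t` under the valuation `σ`, where a value is
computed bottom-up, and at each node the term obtained from the values of the arguments may be
rewritten at the root by one equation of `E ∪ E⁻¹`, the right-hand side of which is again evaluated
in this way.
-/

namespace Pool.Agent.TH260.EU

universe u

variable {F : Type u} {ar : F → ℕ} {E : Set (Term ar × Term ar)}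

namespace Term

theorem subst_subst (σ θ : ℕ → Term ar) (t : Term ar) :
    (t.subst σ).subst θ = t.subst (fun x => (σ x).subst θ) := by
  induction t with
  | var x => rfl
  | app f ts ih => simp only [subst]; congr 1; funext i; exact ih i

theorem subst_congr {σ θ : ℕ → Term ar} {t : Term ar} (h : ∀ x ∈ t.vars, σ x = θ x) :
    t.subst σ = t.subst θ := by
  induction t with
  | var x => exact h x (by simp [vars])
  | app f ts ih =>
    simp only [subst]; congr 1; funext i
    exact ih i fun x hx => h x (by simp only [vars, Finset.mem_biUnion]; exact ⟨i, by simp, hx⟩)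

theorem subst_var (t : Term ar) : t.subst var = t := by
  induction t with
  | var x => rfl
  | app f ts ih => simp only [subst]; congr 1; funext i; exact ih i

theorem subst_id {σ : ℕ → Term ar} {t : Term ar} (h : ∀ x ∈ t.vars, σ x = var x) :
    t.subst σ = t := by
  rw [subst_congr h, subst_var]

theorem mem_vars_app {x : ℕ} {f : F} {ts : Fin (ar f) → Term ar} :
    x ∈ (app f ts).vars ↔ ∃ i, x ∈ (ts i).vars := by
  simp [vars]

theorem mem_vars_subst {x : ℕ} {σ : ℕ → Term ar} {t : Term ar} :
    x ∈ (t.subst σ).vars ↔ ∃ y ∈ t.vars, x ∈ (σ y).vars := by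
  induction t with
  | var y => simp [subst, vars]
  | app f ts ih =>
    simp only [subst, mem_vars_app]
    constructor
    · rintro ⟨i, hi⟩
      obtain ⟨y, hy, hx⟩ := (ih i).1 hi
      exact ⟨y, ⟨i, hy⟩, hx⟩
    · rintro ⟨y, ⟨i, hy⟩, hx⟩
      exact ⟨i, (ih i).2 ⟨y, hy, hx⟩⟩

end Term

theorem EqE.subst {s t : Term ar} (h : EqE E s t) (θ : ℕ → Term ar) :
    EqE E (s.subst θ) (t.subst θ) := by
  induction h with
  | ax l r σ h =>
    rw [Term.subst_subst, Term.subst_subst]
    exact EqE.ax _ _ _ h
  | refl s => exact EqE.refl _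
  | symm s t h ih => exact EqE.symm _ _ ih
  | trans s t w h1 h2 ih1 ih2 => exact EqE.trans _ _ _ ih1 ih2
  | cong f ss ts h ih => exact EqE.cong _ _ _ ih

theorem EqE.subst_congr {σ θ : ℕ → Term ar} {t : Term ar} (h : ∀ x ∈ t.vars, EqE E (σ x) (θ x)) :
    EqE E (t.subst σ) (t.subst θ) := by
  induction t with
  | var x => exact h x (by simp [Term.vars])
  | app f ts ih =>
    exact EqE.cong _ _ _ fun i => ih i fun x hx => h x (Term.mem_vars_app.2 ⟨i, hx⟩)

/-- The rules: the equations of `E ∪ E⁻¹` with a non-variable left-hand side, and for the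
equations `z ≐ r` with a variable left-hand side, the instances obtained by replacing `z` by
`f(y₁,…,yₙ)` with new variables `yᵢ`. -/
inductive Rule (E : Set (Term ar × Term ar)) :
    (f : F) → (Fin (ar f) → Term ar) → Term ar → Prop
  | app (f : F) (ls : Fin (ar f) → Term ar) (r : Term ar)
      (h : (Term.app f ls, r) ∈ E ∨ (r, Term.app f ls) ∈ E) : Rule E f ls r
  | var (f : F) (z : ℕ) (r : Term ar) (N : ℕ) (h : (Term.var z, r) ∈ E ∨ (r, Term.var z) ∈ E)
      (hz : z < N) (hr : ∀ x ∈ r.vars, x < N) :
      Rule E f (fun i => Term.var (N + i))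
        (r.subst (Function.update Term.var z (Term.app f (fun i => Term.var (N + i)))))

/-- Values of a pattern under a valuation. -/
inductive ev (E : Set (Term ar × Term ar)) : Term ar → (ℕ → Term ar) → Term ar → Prop
  | var (x : ℕ) (σ : ℕ → Term ar) : ev E (Term.var x) σ (σ x)
  | refl (f : F) (ts vs : Fin (ar f) → Term ar) (σ : ℕ → Term ar)
      (h : ∀ i, ev E (ts i) σ (vs i)) : ev E (Term.app f ts) σ (Term.app f vs)
  | step (f : F) (ts vs ls : Fin (ar f) → Term ar) (r : Term ar) (σ τ : ℕ → Term ar) (w : Term ar)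
      (h1 : ∀ i, ev E (ts i) σ (vs i)) (hr : Rule E f ls r) (h2 : ∀ i, ev E (ls i) τ (vs i))
      (h3 : ev E r τ w) : ev E (Term.app f ts) σ w

/-- The terms reachable at the root from `f(vs)`. -/
def Red (E : Set (Term ar × Term ar)) (f : F) (vs : Fin (ar f) → Term ar) (w : Term ar) : Prop :=
  w = Term.app f vs ∨ ∃ (ls : Fin (ar f) → Term ar) (r : Term ar) (τ : ℕ → Term ar),
    Rule E f ls r ∧ (∀ i, ev E (ls i) τ (vs i)) ∧ ev E r τ w

theorem ev_app_of_red {f : F} {ts vs : Fin (ar f) → Term ar} {σ : ℕ → Term ar} {w : Term ar}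
    (h : ∀ i, ev E (ts i) σ (vs i)) (hw : Red E f vs w) : ev E (Term.app f ts) σ w := by
  rcases hw with rfl | ⟨ls, r, τ, h1, h2, h3⟩
  · exact ev.refl _ _ _ _ h
  · exact ev.step _ _ _ _ _ _ _ _ h h1 h2 h3

theorem Rule.sound {f : F} {ls : Fin (ar f) → Term ar} {r : Term ar} (h : Rule E f ls r) :
    EqE E (Term.app f ls) r := by
  cases h with
  | app _ _ h =>
    rcases h with h | h
    · simpa only [Term.subst_var] using EqE.ax _ _ Term.var h
    · simpa only [Term.subst_var] using EqE.symm _ _ (EqE.ax _ _ Term.var h)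
  | var z r N h hz hr =>
    have h1 : EqE E ((Term.var z).subst (Function.update Term.var z
        (Term.app f (fun i => Term.var (N + i))))) (r.subst (Function.update Term.var z
        (Term.app f (fun i => Term.var (N + i))))) := by
      rcases h with h | h
      · exact EqE.ax _ _ _ h
      · exact EqE.symm _ _ (EqE.ax _ _ _ h)
    simpa only [Term.subst, Function.update_self] using h1

theorem ev.sound {t : Term ar} {σ : ℕ → Term ar} {w : Term ar} (h : ev E t σ w) :
    EqE E w (t.subst σ) := by
  induction h with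
  | var x σ => exact EqE.refl _
  | refl f ts vs σ h ih => exact EqE.cong _ _ _ ih
  | step f ts vs ls r σ τ w h1 hr h2 h3 ih1 ih2 ih3 =>
    have e1 : EqE E (Term.app f vs) ((Term.app f ts).subst σ) := EqE.cong _ _ _ ih1
    have e2 : EqE E (Term.app f vs) ((Term.app f ls).subst τ) := EqE.cong _ _ _ ih2
    have e3 := (hr.sound).subst τ
    exact EqE.trans _ _ _ ih3 (EqE.trans _ _ _ (EqE.symm _ _ e3)
      (EqE.trans _ _ _ (EqE.symm _ _ e2) e1))

theorem Red.sound {f : F} {vs : Fin (ar f) → Term ar} {w : Term ar} (h : Red E f vs w) :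
    EqE E w (Term.app f vs) := by
  have h1 : ev E (Term.app f vs) Term.var w ∨ True := Or.inr trivial
  rcases h with rfl | ⟨ls, r, τ, hr, h2, h3⟩
  · exact EqE.refl _
  · have e2 : EqE E (Term.app f vs) ((Term.app f ls).subst τ) :=
      EqE.cong _ _ _ fun i => (h2 i).sound
    exact EqE.trans _ _ _ h3.sound (EqE.trans _ _ _ (EqE.symm _ _ ((hr.sound).subst τ))
      (EqE.symm _ _ e2))

/-- Values are stable under substitution. -/
theorem ev.subst {t : Term ar} {σ : ℕ → Term ar} {w : Term ar} (h : ev E t σ w)
    (ρ : ℕ → Term ar) : ev E t (fun x => (σ x).subst ρ) (w.subst ρ) := by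
  induction h with
  | var x σ => exact ev.var x _
  | refl f ts vs σ h ih => exact ev.refl _ _ _ _ ih
  | step f ts vs ls r σ τ w h1 hr h2 h3 ih1 ih2 ih3 =>
    exact ev.step _ _ _ _ _ _ _ _ ih1 hr ih2 ih3

theorem Red.subst {f : F} {vs : Fin (ar f) → Term ar} {w : Term ar} (h : Red E f vs w)
    (ρ : ℕ → Term ar) : Red E f (fun i => (vs i).subst ρ) (w.subst ρ) := by
  rcases h with rfl | ⟨ls, r, τ, hr, h2, h3⟩
  · exact Or.inl rfl
  · exact Or.inr ⟨ls, r, _, hr, fun i => (h2 i).subst ρ, h3.subst ρ⟩

/-- Irreducible terms: no subterm `f(vs)` can be reduced to a smaller term. -/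
def Irr (E : Set (Term ar × Term ar)) : Term ar → Prop
  | .var _ => True
  | .app f vs => (∀ i, Irr E (vs i)) ∧ ∀ w, Red E f vs w → ¬ w < Term.app f vs

open Classical in
/-- Replacement of all occurrences of `a` by `b`. -/
noncomputable def repl (a b : Term ar) : Term ar → Term ar
  | .var x => if Term.var x = a then b else Term.var x
  | .app f ts => if Term.app f ts = a then b else Term.app f (fun i => repl a b (ts i))

theorem repl_self (a b : Term ar) : repl a b a = b := by
  cases a <;> simp [repl]

theorem repl_le {a b : Term ar} (h : b ≤ a) (u : Term ar) : repl a b u ≤ u := by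
  induction u with
  | var x =>
    simp only [repl]
    split_ifs with h1
    · rw [h1]; exact h
    · exact le_rfl
  | app f ts ih =>
    simp only [repl]
    split_ifs with h1
    · rw [h1]; exact h
    · exact app_le_app f ih

theorem repl_irr {f₁ : F} {vs₁ : Fin (ar f₁) → Term ar} {w₁ : Term ar} (h1 : Red E f₁ vs₁ w₁)
    (h2 : w₁ < Term.app f₁ vs₁) {u : Term ar} (hu : Irr E u) :
    repl (Term.app f₁ vs₁) w₁ u = u := by
  induction u with
  | var x => simp [repl]
  | app f ts ih =>
    simp only [repl]
    rw [if_neg]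
    · congr 1; funext i; exact ih i (hu.1 i)
    · intro heq
      rw [heq] at hu
      exact hu.2 _ h1 h2

theorem ev.repl {f₁ : F} {vs₁ : Fin (ar f₁) → Term ar} {w₁ : Term ar} (h1 : Red E f₁ vs₁ w₁)
    (h2 : w₁ < Term.app f₁ vs₁) (h3 : ∀ i, Irr E (vs₁ i)) {t : Term ar} {σ : ℕ → Term ar}
    {w : Term ar} (h : ev E t σ w) :
    ev E t (fun x => EU.repl (Term.app f₁ vs₁) w₁ (σ x)) (EU.repl (Term.app f₁ vs₁) w₁ w) := by
  induction h with
  | var x σ => exact ev.var x _
  | refl f ts vs σ h ih =>
    by_cases heq : Term.app f vs = Term.app f₁ vs₁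
    · rw [heq, repl_self]
      simp only [Term.app.injEq] at heq
      obtain ⟨rfl, heq⟩ := heq
      obtain rfl := eq_of_heq heq
      refine ev_app_of_red (vs := vs) ?_ h1
      intro i
      have := ih i
      rwa [repl_irr h1 h2 (h3 i)] at this
    · have : EU.repl (Term.app f₁ vs₁) w₁ (Term.app f vs) =
          Term.app f (fun i => EU.repl (Term.app f₁ vs₁) w₁ (vs i)) := by
        simp only [EU.repl]
        rw [if_neg heq]
      rw [this]
      exact ev.refl _ _ _ _ ih
  | step f ts vs ls r σ τ w g1 hr g2 g3 ih1 ih2 ih3 =>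
    exact ev.step _ _ _ _ _ _ _ _ ih1 hr ih2 ih3

theorem exists_redex {w : Term ar} (h : ¬ Irr E w) : ∃ (f₁ : F) (vs₁ : Fin (ar f₁) → Term ar)
    (w₁ : Term ar), Red E f₁ vs₁ w₁ ∧ w₁ < Term.app f₁ vs₁ ∧ (∀ i, Irr E (vs₁ i)) ∧
      repl (Term.app f₁ vs₁) w₁ w < w := by
  induction w with
  | var x => exact absurd trivial h
  | app f us ih =>
    by_cases hus : ∀ i, Irr E (us i)
    · have : ∃ w, Red E f us w ∧ w < Term.app f us := by
        by_contra hcon
        push Not at hcon
        exact h ⟨hus, fun w hw => not_lt.2 (hcon w hw)⟩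
      obtain ⟨w, hw, hlt⟩ := this
      exact ⟨f, us, w, hw, hlt, hus, by rw [repl_self]; exact hlt⟩
    · push Not at hus
      obtain ⟨i, hi⟩ := hus
      obtain ⟨f₁, vs₁, w₁, h1, h2, h3, h4⟩ := ih i hi
      refine ⟨f₁, vs₁, w₁, h1, h2, h3, ?_⟩
      simp only [repl]
      split_ifs with heq
      · rw [heq]; exact h2
      · exact app_lt_app f (fun j => repl_le h2.le _) i h4

theorem irr_of_min {f : F} {vs : Fin (ar f) → Term ar} {w : Term ar} (hvs : ∀ i, Irr E (vs i))
    (hw : Red E f vs w) (hmin : ∀ w', Red E f vs w' → ¬ w' < w) : Irr E w := by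
  by_contra hcon
  obtain ⟨f₁, vs₁, w₁, h1, h2, h3, h4⟩ := exists_redex hcon
  refine hmin _ ?_ h4
  rcases hw with rfl | ⟨ls, r, τ, hr, g2, g3⟩
  · by_cases heq : Term.app f vs = Term.app f₁ vs₁
    · rw [heq, repl_self]
      simp only [Term.app.injEq] at heq
      obtain ⟨rfl, heq⟩ := heq
      obtain rfl := eq_of_heq heq
      exact h1
    · left
      simp only [repl]
      rw [if_neg heq]
      congr 1; funext i
      exact repl_irr h1 h2 (hvs i)
  · right
    refine ⟨ls, r, _, hr, fun i => ?_, g3.repl h1 h2 h3⟩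
    have := (g2 i).repl h1 h2 h3
    rwa [repl_irr h1 h2 (hvs i)] at this

/-- The normal form function. -/
noncomputable def nf (E : Set (Term ar × Term ar)) : Term ar → Term ar
  | .var x => Term.var x
  | .app f us => WellFounded.min (wellFounded_lt : WellFounded ((· < ·) : Term ar → Term ar → Prop))
      {w | Red E f (fun i => nf E (us i)) w} ⟨_, Or.inl rfl⟩

theorem nf_var (x : ℕ) : nf E (Term.var x) = Term.var x := rfl

theorem nf_app_red (f : F) (us : Fin (ar f) → Term ar) :
    Red E f (fun i => nf E (us i)) (nf E (Term.app f us)) := by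
  simp only [nf]
  exact WellFounded.min_mem _ {w | Red E f (fun i => nf E (us i)) w} _

theorem nf_app_le (f : F) (us : Fin (ar f) → Term ar) {w : Term ar}
    (hw : Red E f (fun i => nf E (us i)) w) : nf E (Term.app f us) ≤ w := by
  simp only [nf]
  exact not_lt.1 (WellFounded.not_lt_min _ {w | Red E f (fun i => nf E (us i)) w} hw)

theorem nf_irr (u : Term ar) : Irr E (nf E u) := by
  induction u with
  | var x => trivial
  | app f us ih =>
    exact irr_of_min ih (nf_app_red f us) fun w' hw' => not_lt.2 (nf_app_le f us hw')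

theorem nf_of_irr {u : Term ar} (hu : Irr E u) : nf E u = u := by
  induction u with
  | var x => rfl
  | app f us ih =>
    have h1 : (fun i => nf E (us i)) = us := funext fun i => ih i (hu.1 i)
    have h2 := nf_app_red (E := E) f us
    have h3 := nf_app_le (E := E) f us (Or.inl rfl)
    rw [h1] at h2 h3
    exact le_antisymm h3 (not_lt.1 (hu.2 _ h2))

theorem nf_app_congr {f : F} {us vs : Fin (ar f) → Term ar} (h : ∀ i, nf E (us i) = nf E (vs i)) :
    nf E (Term.app f us) = nf E (Term.app f vs) := by
  have h1 : (fun i => nf E (us i)) = (fun i => nf E (vs i)) := funext h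
  refine le_antisymm (nf_app_le f us ?_) (nf_app_le f vs ?_)
  · rw [h1]; exact nf_app_red f vs
  · rw [← h1]; exact nf_app_red f us

theorem nf_subst_nf (θ : ℕ → Term ar) (t : Term ar) :
    nf E (t.subst (fun x => nf E (θ x))) = nf E (t.subst θ) := by
  induction t with
  | var x => exact nf_of_irr (nf_irr _)
  | app f ts ih => exact nf_app_congr ih

theorem ev_nf {σ : ℕ → Term ar} (hσ : ∀ x, Irr E (σ x)) (t : Term ar) :
    ev E t σ (nf E (t.subst σ)) := by
  induction t with
  | var x =>
    have : nf E ((Term.var x).subst σ) = σ x := nf_of_irr (hσ x)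
    rw [this]; exact ev.var x σ
  | app f ts ih => exact ev_app_of_red ih (nf_app_red f _)

theorem nf_sound (u : Term ar) : EqE E (nf E u) u := by
  induction u with
  | var x => exact EqE.refl _
  | app f us ih => exact EqE.trans _ _ _ (nf_app_red f us).sound (EqE.cong _ _ _ ih)

theorem nf_world {ρ : ℕ → Term ar} (h3 : ∀ w : Term ar, w.subst ρ ≤ w) {u : Term ar}
    (hu : u.subst ρ = u) : (nf E u).subst ρ = nf E u := by
  induction u with
  | var x => exact hu
  | app f us ih =>
    have hus : ∀ i, (us i).subst ρ = us i := by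
      intro i
      simp only [Term.subst, Term.app.injEq, heq_eq_eq, true_and] at hu
      exact congrFun hu i
    have h := (nf_app_red (E := E) f us).subst ρ
    have h' : (fun i => (nf E (us i)).subst ρ) = fun i => nf E (us i) :=
      funext fun i => ih i (hus i)
    rw [h'] at h
    exact le_antisymm (h3 _) (nf_app_le f us h)

/-- Conditions on a substitution `ρ` by which all values are normalised beforehand. -/
structure World (E : Set (Term ar × Term ar)) (ρ : ℕ → Term ar) : Prop where
  eqE : ∀ u : Term ar, EqE E (u.subst ρ) u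
  idem : ∀ u : Term ar, (u.subst ρ).subst ρ = u.subst ρ
  le : ∀ w : Term ar, w.subst ρ ≤ w
  var_min : ∀ (y : ℕ) (w : Term ar), (Term.var y : Term ar).subst ρ = Term.var y →
    w.subst ρ = w → EqE E w (Term.var y) → w ≤ Term.var y → w = Term.var y

theorem exists_world (E : Set (Term ar × Term ar)) : ∃ ρ : ℕ → Term ar, World E ρ := by
  by_cases h : EqE E (Term.var 0 : Term ar) (Term.var 1)
  · have hall : ∀ s t : Term ar, EqE E s t := by
      intro s t
      have := h.subst (fun x => if x = 0 then s else t)
      simpa [Term.subst] using this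
    refine ⟨fun _ => Term.var 0, fun u => hall _ _, ?_, ?_, ?_⟩
    · intro u
      rw [Term.subst_subst]; rfl
    · intro w
      induction w with
      | var x => exact var_le_var (Nat.zero_le x)
      | app f ts ih => exact app_le_app f ih
    · intro y w hy hw he hle
      obtain ⟨z, hz, rfl⟩ := le_var hle
      simp only [Term.subst] at hy hw
      rw [← hw, ← hy]
  · refine ⟨Term.var, fun u => ?_, fun u => ?_, fun w => ?_, ?_⟩
    · rw [Term.subst_var]; exact EqE.refl _
    · rw [Term.subst_var, Term.subst_var]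
    · rw [Term.subst_var]
    · intro y w hy hw he hle
      obtain ⟨z, hz, rfl⟩ := le_var hle
      by_contra hne
      have hne' : z ≠ y := fun h => hne (by rw [h])
      apply h
      have := he.subst (fun x => if x = z then Term.var 0 else Term.var 1)
      simpa [Term.subst, hne'.symm] using this

theorem nf_half {l r : Term ar} (hlr : (l, r) ∈ E ∨ (r, l) ∈ E)
    {σ : ℕ → Term ar} (hσ : ∀ x, Irr E (σ x)) (hl : ∀ y, l.subst σ ≠ Term.var y) :
    nf E (l.subst σ) ≤ nf E (r.subst σ) := by
  cases l with
  | app f ls =>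
    refine nf_app_le f _ (Or.inr ⟨ls, r, σ, Rule.app f ls r hlr, fun i => ev_nf hσ _, ev_nf hσ _⟩)
  | var z =>
    cases hz : σ z with
    | var y => exact absurd hz (hl y)
    | app f us =>
      -- new variables for the arguments
      obtain ⟨N, hzN, hrN⟩ : ∃ N, z < N ∧ ∀ x ∈ r.vars, x < N := by
        refine ⟨max (z + 1) (r.vars.sup id + 1), by simp, fun x hx => ?_⟩
        have : x ≤ r.vars.sup id := Finset.le_sup (f := id) hx
        exact lt_of_lt_of_le (Nat.lt_succ_of_le this) (le_max_right _ _)
      have hus : ∀ i, Irr E (us i) := by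
        have := hσ z
        rw [hz] at this
        exact this.1
      let τ : ℕ → Term ar := fun x => if x < N then σ x else
        if h : x - N < ar f then us ⟨x - N, h⟩ else Term.var x
      have hτ1 : ∀ x, x < N → τ x = σ x := fun x hx => by simp only [τ, if_pos hx]
      have hτ2 : ∀ i : Fin (ar f), τ (N + i) = us i := fun i => by
        simp only [τ]
        rw [if_neg (by omega)]
        have : N + (i : ℕ) - N = i := by omega
        simp [this]
      have hτ : ∀ x, Irr E (τ x) := by
        intro x
        simp only [τ]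
        split_ifs
        · exact hσ x
        · exact hus _
        · trivial
      have hl' : ∀ i, nf E (us i) = us i := fun i => nf_of_irr (hus i)
      have e1 : (Term.var z : Term ar).subst σ = Term.app f us := hz
      rw [e1]
      refine nf_app_le f _ (Or.inr ⟨_, _, τ, Rule.var f z r N hlr hzN hrN, fun i => ?_, ?_⟩)
      · simp only
        rw [hl' i, ← hτ2 i]
        exact ev.var _ _
      · have e2 : (r.subst (Function.update Term.var z
            (Term.app f (fun i : Fin (ar f) => Term.var (N + (i : ℕ)))))).subst τ = r.subst σ := by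
          rw [Term.subst_subst]
          apply Term.subst_congr
          intro x hx
          by_cases hxz : x = z
          · subst hxz
            rw [Function.update_self]
            simp only [Term.subst, hτ2]
            exact hz.symm
          · rw [Function.update_of_ne hxz]
            exact hτ1 x (hrN x hx)
        rw [← e2]
        exact ev_nf hτ _

theorem nf_ax {ρ : ℕ → Term ar} (hρ : World E ρ) {l r : Term ar}
    (hlr : (l, r) ∈ E ∨ (r, l) ∈ E) {σ : ℕ → Term ar} (hσ : ∀ x, Irr E (σ x))
    (hσρ : ∀ x, (σ x).subst ρ = σ x) : nf E (l.subst σ) = nf E (r.subst σ) := by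
  have hEq : EqE E (nf E (l.subst σ)) (nf E (r.subst σ)) := by
    have h1 : EqE E (l.subst σ) (r.subst σ) := by
      rcases hlr with h | h
      · exact EqE.ax _ _ _ h
      · exact EqE.symm _ _ (EqE.ax _ _ _ h)
    exact EqE.trans _ _ _ (nf_sound _) (EqE.trans _ _ _ h1 (EqE.symm _ _ (nf_sound _)))
  have hw : ∀ t : Term ar, (nf E (t.subst σ)).subst ρ = nf E (t.subst σ) := by
    intro t
    apply nf_world hρ.le
    rw [Term.subst_subst]
    exact Term.subst_congr fun x _ => hσρ x
  by_cases h1 : ∀ y, l.subst σ ≠ Term.var y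
  · by_cases h2 : ∀ y, r.subst σ ≠ Term.var y
    · exact le_antisymm (nf_half hlr hσ h1) (nf_half hlr.symm hσ h2)
    · push Not at h2
      obtain ⟨y, hy⟩ := h2
      have hle := nf_half hlr hσ h1
      have hwr := hw r
      rw [hy, nf_var] at hle hEq hwr ⊢
      exact hρ.var_min y _ hwr (hw l) hEq hle
  · push Not at h1
    obtain ⟨y, hy⟩ := h1
    have hwl := hw l
    have hwr := hw r
    rw [hy, nf_var] at hEq hwl ⊢
    by_cases h2 : ∀ y, r.subst σ ≠ Term.var y
    · have hle := nf_half hlr.symm hσ h2
      rw [hy, nf_var] at hle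
      exact (hρ.var_min y _ hwl hwr (EqE.symm _ _ hEq) hle).symm
    · push Not at h2
      obtain ⟨z, hz⟩ := h2
      rw [hz, nf_var] at hEq hwr ⊢
      rcases le_total (Term.var y : Term ar) (Term.var z) with h | h
      · exact hρ.var_min z _ hwr hwl hEq h
      · exact (hρ.var_min y _ hwl hwr (EqE.symm _ _ hEq) h).symm

theorem nf_inv {ρ : ℕ → Term ar} (hρ : World E ρ) {s t : Term ar} (h : EqE E s t) :
    nf E (s.subst ρ) = nf E (t.subst ρ) := by
  induction h with
  | ax l r θ h =>
    rw [Term.subst_subst, Term.subst_subst, ← nf_subst_nf _ l, ← nf_subst_nf _ r]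
    exact nf_ax hρ (Or.inl h) (fun x => nf_irr _) fun x => nf_world hρ.le (hρ.idem _)
  | refl s => rfl
  | symm s t h ih => exact ih.symm
  | trans s t w h1 h2 ih1 ih2 => exact ih1.trans ih2
  | cong f ss ts h ih => exact nf_app_congr ih

/-- Existence of plans: an `E`-unifier `θ` can be replaced by an `E`-equal substitution `θ₀` such
that `E`-equal instances by `θ` have a common value under `θ₀`. -/
theorem exists_plan (E : Set (Term ar × Term ar)) (θ : ℕ → Term ar) : ∃ θ₀ : ℕ → Term ar,
    (∀ x, EqE E (θ₀ x) (θ x)) ∧ ∀ s t : Term ar, EqE E (s.subst θ) (t.subst θ) →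
      ∃ w, ev E s θ₀ w ∧ ev E t θ₀ w := by
  obtain ⟨ρ, hρ⟩ := exists_world E
  refine ⟨fun x => nf E ((θ x).subst ρ), fun x => ?_, fun s t h => ?_⟩
  · exact EqE.trans _ _ _ (nf_sound _) (hρ.eqE _)
  · have h1 := nf_inv hρ h
    rw [Term.subst_subst, Term.subst_subst, ← nf_subst_nf _ s, ← nf_subst_nf _ t] at h1
    refine ⟨_, ev_nf (fun x => nf_irr _) s, ?_⟩
    rw [h1]
    exact ev_nf (fun x => nf_irr _) t

end Pool.Agent.TH260.EU
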