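import Mathlib
import Pool.Agent.TH260.EU.Plan

set_option autoImplicit false

/-!
# Evaluation with costs

`Ev E t σ w M` refines `ev E t σ w`: `M` is the multiset of the levels of the rewriting steps of
the evaluation of `t`, where the level of a step is larger than all levels which occur in the
evaluation of the arguments of the left-hand side of its rule.
-/

namespace Pool.Agent.TH260.EU

universe u

variable {F : Type u} {ar : F → ℕ} {E : Set (Term ar × Term ar)}

/-- Values of a pattern under a valuation, with costs. -/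
inductive Ev (E : Set (Term ar × Term ar)) :
    Term ar → (ℕ → Term ar) → Term ar → Multiset ℕ → Prop
  | var (x : ℕ) (σ : ℕ → Term ar) : Ev E (Term.var x) σ (σ x) 0
  | refl (f : F) (ts vs : Fin (ar f) → Term ar) (σ : ℕ → Term ar)
      (M : Fin (ar f) → Multiset ℕ) (h : ∀ i, Ev E (ts i) σ (vs i) (M i)) :
      Ev E (Term.app f ts) σ (Term.app f vs) (∑ i, M i)
  | step (f : F) (ts vs ls : Fin (ar f) → Term ar) (r : Term ar) (σ τ : ℕ → Term ar) (w : Term ar)
      (M A : Fin (ar f) → Multiset ℕ) (N : Multiset ℕ) (k : ℕ)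
      (h1 : ∀ i, Ev E (ts i) σ (vs i) (M i)) (hr : Rule E f ls r)
      (h2 : ∀ i, Ev E (ls i) τ (vs i) (A i)) (hk : ∀ i, ∀ a ∈ A i, a < k)
      (h3 : Ev E r τ w N) : Ev E (Term.app f ts) σ w (∑ i, M i + k ::ₘ N)

theorem exists_lt_all (S : Multiset ℕ) : ∃ k, ∀ a ∈ S, a < k :=
  ⟨S.sup + 1, fun _ ha => Nat.lt_succ_of_le (Multiset.le_sup ha)⟩

theorem Ev.of_ev {t : Term ar} {σ : ℕ → Term ar} {w : Term ar} (h : ev E t σ w) :
    ∃ M, Ev E t σ w M := by
  induction h with
  | var x σ => exact ⟨0, Ev.var x σ⟩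
  | refl f ts vs σ h ih =>
    choose M hM using ih
    exact ⟨_, Ev.refl f ts vs σ M hM⟩
  | step f ts vs ls r σ τ w h1 hr h2 h3 ih1 ih2 ih3 =>
    choose M hM using ih1
    choose A hA using ih2
    obtain ⟨N, hN⟩ := ih3
    obtain ⟨k, hk⟩ := exists_lt_all (∑ i, A i)
    refine ⟨_, Ev.step f ts vs ls r σ τ w M A N k hM hr hA (fun i a ha => hk a ?_) hN⟩
    rw [Multiset.mem_sum]
    exact ⟨i, Finset.mem_univ i, ha⟩

theorem Ev.ev {t : Term ar} {σ : ℕ → Term ar} {w : Term ar} {M : Multiset ℕ}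
    (h : Ev E t σ w M) : EU.ev E t σ w := by
  induction h with
  | var x σ => exact ev.var x σ
  | refl f ts vs σ M h ih => exact ev.refl _ _ _ _ ih
  | step f ts vs ls r σ τ w M A N k h1 hr h2 hk h3 ih1 ih2 ih3 =>
    exact ev.step _ _ _ _ _ _ _ _ ih1 hr ih2 ih3

theorem Ev.sound {t : Term ar} {σ : ℕ → Term ar} {w : Term ar} {M : Multiset ℕ}
    (h : Ev E t σ w M) : EqE E w (t.subst σ) := h.ev.sound

theorem Ev.exact (t : Term ar) (σ : ℕ → Term ar) : Ev E t σ (t.subst σ) 0 := by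
  induction t with
  | var x => exact Ev.var x σ
  | app f ts ih =>
    have := Ev.refl f ts (fun i => (ts i).subst σ) σ (fun _ => 0) ih
    rw [Finset.sum_const_zero] at this
    exact this

theorem Ev.eq_of_zero {t : Term ar} {σ : ℕ → Term ar} {w : Term ar} {M : Multiset ℕ}
    (h : Ev E t σ w M) (hM : M = 0) : w = t.subst σ := by
  induction h with
  | var x σ => rfl
  | refl f ts vs σ M h ih =>
    have hM' : ∀ i, M i = 0 := by
      intro i
      have := Finset.sum_eq_zero_iff.1 hM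
      exact this i (Finset.mem_univ i)
    simp only [Term.subst]
    congr 1; funext i
    exact ih i (hM' i)
  | step f ts vs ls r σ τ w M A N k h1 hr h2 hk h3 ih1 ih2 ih3 =>
    have h0 : k ∈ (∑ i, M i + k ::ₘ N) := by simp
    rw [hM] at h0
    simp at h0

theorem Ev.var_inv {x : ℕ} {σ : ℕ → Term ar} {w : Term ar} {M : Multiset ℕ}
    (h : Ev E (Term.var x) σ w M) : w = σ x ∧ M = 0 := by
  cases h with
  | var => exact ⟨rfl, rfl⟩

/-- Substitution at the leaves of a pattern. -/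
theorem Ev.inst {t : Term ar} {τ : ℕ → Term ar} {w : Term ar} {M : Multiset ℕ}
    (h : Ev E t τ w M) {γ θ : ℕ → Term ar} {L : ℕ}
    (hγ : ∀ y ∈ t.vars, ∃ K : Multiset ℕ, (∀ a ∈ K, a < L) ∧ Ev E (γ y) θ (τ y) K) :
    ∃ δ : Multiset ℕ, (∀ a ∈ δ, a < L) ∧ Ev E (t.subst γ) θ w (M + δ) := by
  induction h with
  | var x τ =>
    obtain ⟨K, hK, hev⟩ := hγ x (by simp [Term.vars])
    exact ⟨K, hK, by rw [zero_add]; exact hev⟩
  | refl f ts vs τ M h ih =>
    have : ∀ i, ∃ δ : Multiset ℕ, (∀ a ∈ δ, a < L) ∧ Ev E ((ts i).subst γ) θ (vs i) (M i + δ) :=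
      fun i => ih i fun y hy => hγ y (Term.mem_vars_app.2 ⟨i, hy⟩)
    choose δ hδ hev using this
    refine ⟨∑ i, δ i, fun a ha => ?_, ?_⟩
    · rw [Multiset.mem_sum] at ha
      obtain ⟨i, _, hi⟩ := ha
      exact hδ i a hi
    · rw [← Finset.sum_add_distrib]
      exact Ev.refl f _ vs θ _ hev
  | step f ts vs ls r σ τ w M A N k h1 hr h2 hk h3 ih1 ih2 ih3 =>
    have : ∀ i, ∃ δ : Multiset ℕ, (∀ a ∈ δ, a < L) ∧ Ev E ((ts i).subst γ) θ (vs i) (M i + δ) :=
      fun i => ih1 i fun y hy => hγ y (Term.mem_vars_app.2 ⟨i, hy⟩)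
    choose δ hδ hev using this
    refine ⟨∑ i, δ i, fun a ha => ?_, ?_⟩
    · rw [Multiset.mem_sum] at ha
      obtain ⟨i, _, hi⟩ := ha
      exact hδ i a hi
    · have e : ∑ i, M i + k ::ₘ N + ∑ i, δ i = ∑ i, (M i + δ i) + k ::ₘ N := by
        rw [Finset.sum_add_distrib, ← Multiset.singleton_add]
        abel
      rw [e]
      exact Ev.step f _ vs ls r θ τ w _ A N k hev hr h2 hk h3

/-- Exact substitution at the leaves of a pattern. -/
theorem Ev.inst_exact {t : Term ar} {τ : ℕ → Term ar} {w : Term ar} {M : Multiset ℕ}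
    (h : Ev E t τ w M) {γ θ : ℕ → Term ar} (hγ : ∀ y ∈ t.vars, (γ y).subst θ = τ y) :
    Ev E (t.subst γ) θ w M := by
  obtain ⟨δ, hδ, hev⟩ := h.inst (γ := γ) (θ := θ) (L := 0)
    fun y hy => ⟨0, by simp, by rw [← hγ y hy]; exact Ev.exact _ _⟩
  have : δ = 0 := Multiset.eq_zero_of_forall_notMem fun a ha => Nat.not_lt_zero _ (hδ a ha)
  rw [this, add_zero] at hev
  exact hev

theorem Ev.congr {t : Term ar} {τ : ℕ → Term ar} {w : Term ar} {M : Multiset ℕ}
    (h : Ev E t τ w M) {θ : ℕ → Term ar} (hθ : ∀ y ∈ t.vars, θ y = τ y) : Ev E t θ w M := by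
  have := h.inst_exact (γ := Term.var) (θ := θ) hθ
  rwa [Term.subst_var] at this

theorem sum_update_cons {n : ℕ} {M : Fin n → Multiset ℕ} {i : Fin n} {k : ℕ} {M' : Multiset ℕ}
    (h : M i = k ::ₘ M') : ∑ j, M j = k ::ₘ ∑ j, Function.update M i M' j := by
  rw [Finset.sum_update_of_mem (Finset.mem_univ i),
    Finset.sum_eq_add_sum_sdiff_singleton_of_mem (Finset.mem_univ i), h, Multiset.cons_add]

/-- Every evaluation with non-zero cost has an innermost rewriting step. -/
theorem Ev.extract {t : Term ar} {σ : ℕ → Term ar} {w : Term ar} {M : Multiset ℕ}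
    (h : Ev E t σ w M) (hM : M ≠ 0) :
    ∃ (C : Ctx ar) (f : F) (ts ls : Fin (ar f) → Term ar) (r : Term ar) (τ : ℕ → Term ar)
      (A : Fin (ar f) → Multiset ℕ) (k : ℕ) (w' : Term ar) (N M' : Multiset ℕ),
      t = C.fill (Term.app f ts) ∧ Rule E f ls r ∧
      (∀ i, Ev E (ls i) τ ((ts i).subst σ) (A i)) ∧ (∀ i, ∀ a ∈ A i, a < k) ∧
      Ev E r τ w' N ∧ M = k ::ₘ M' ∧
      ∀ (r' : Term ar) (θ : ℕ → Term ar), (∀ x ∈ t.vars, θ x = σ x) → Ev E r' θ w' N →
        Ev E (C.fill r') θ w M' := by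
  induction h with
  | var x σ => exact absurd rfl hM
  | refl f ts vs σ M h ih =>
    have : ∃ i, M i ≠ 0 := by
      by_contra hcon
      push Not at hcon
      exact hM (Finset.sum_eq_zero fun i _ => hcon i)
    obtain ⟨i, hi⟩ := this
    obtain ⟨C, f', ts', ls, r, τ, A, k, w', N, M', h1, h2, h3, h4, h5, h6, h7⟩ := ih i hi
    refine ⟨Ctx.arg f i ts C, f', ts', ls, r, τ, A, k, w', N, _, ?_, h2, h3, h4, h5,
      sum_update_cons h6, fun r' θ hθ hr' => ?_⟩
    · simp only [Ctx.fill]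
      rw [← h1, Function.update_eq_self]
    · refine Ev.refl f _ vs θ _ fun j => ?_
      by_cases hj : j = i
      · subst hj
        simp only [Function.update_self]
        exact h7 r' θ (fun x hx => hθ x (Term.mem_vars_app.2 ⟨_, hx⟩)) hr'
      · simp only [Function.update_of_ne hj]
        exact (h j).congr fun x hx => hθ x (Term.mem_vars_app.2 ⟨_, hx⟩)
  | step f ts vs ls r σ τ w M A N k g1 gr g2 gk g3 ih1 ih2 ih3 =>
    by_cases hM0 : ∀ i, M i = 0
    · refine ⟨Ctx.hole, f, ts, ls, r, τ, A, k, w, N, N, rfl, gr, fun i => ?_, gk, g3, ?_,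
        fun r' θ _ hr' => hr'⟩
      · rw [← (g1 i).eq_of_zero (hM0 i)]
        exact g2 i
      · rw [Finset.sum_eq_zero fun i _ => hM0 i, zero_add]
    · push Not at hM0
      obtain ⟨i, hi⟩ := hM0
      obtain ⟨C, f', ts', ls', r', τ', A', k', w', N', M', h1, h2, h3, h4, h5, h6, h7⟩ := ih1 i hi
      refine ⟨Ctx.arg f i ts C, f', ts', ls', r', τ', A', k', w', N',
        ∑ j, Function.update M i M' j + k ::ₘ N, ?_, h2, h3, h4, h5, ?_, fun r'' θ hθ hr' => ?_⟩
      · simp only [Ctx.fill]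
        rw [← h1, Function.update_eq_self]
      · rw [sum_update_cons h6, Multiset.cons_add]
      · refine Ev.step f _ vs ls r θ τ w _ A N k (fun j => ?_) gr g2 gk g3
        by_cases hj : j = i
        · subst hj
          simp only [Function.update_self]
          exact h7 r'' θ (fun x hx => hθ x (Term.mem_vars_app.2 ⟨_, hx⟩)) hr'
        · simp only [Function.update_of_ne hj]
          exact (g1 j).congr fun x hx => hθ x (Term.mem_vars_app.2 ⟨_, hx⟩)

end Pool.Agent.TH260.EU
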