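import Mathlib
import Pool.Agent.TH260.EU.Cost

set_option autoImplicit false

/-!
# Solvability of the active part of a system by eager derivations
-/

namespace Pool.Agent.TH260.EU

universe u

variable {F : Type u} {ar : F → ℕ} {E : Set (Term ar × Term ar)}

theorem occurs_cons {x : ℕ} {a b : Term ar} {A : Sys ar} :
    Occurs x (s(a, b) ::ₘ A) ↔ x ∈ a.vars ∨ x ∈ b.vars ∨ Occurs x A := by
  simp only [Occurs, Multiset.mem_cons]
  constructor
  · rintro ⟨e, rfl | he, t, ht, hx⟩
    · rw [Sym2.mem_iff] at ht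
      rcases ht with rfl | rfl
      · exact Or.inl hx
      · exact Or.inr (Or.inl hx)
    · exact Or.inr (Or.inr ⟨e, he, t, ht, hx⟩)
  · rintro (h | h | ⟨e, he, t, ht, hx⟩)
    · exact ⟨_, Or.inl rfl, a, by simp, h⟩
    · exact ⟨_, Or.inl rfl, b, by simp, h⟩
    · exact ⟨e, Or.inr he, t, ht, hx⟩

theorem occurs_add {x : ℕ} {A B : Sys ar} : Occurs x (A + B) ↔ Occurs x A ∨ Occurs x B := by
  simp only [Occurs, Multiset.mem_add]
  constructor
  · rintro ⟨e, he | he, h⟩
    · exact Or.inl ⟨e, he, h⟩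
    · exact Or.inr ⟨e, he, h⟩
  · rintro (⟨e, he, h⟩ | ⟨e, he, h⟩)
    · exact ⟨e, Or.inl he, h⟩
    · exact ⟨e, Or.inr he, h⟩

theorem occurs_subst {x : ℕ} {A : Sys ar} {σ : ℕ → Term ar} :
    Occurs x (A.subst σ) ↔ ∃ y, Occurs y A ∧ x ∈ (σ y).vars := by
  simp only [Occurs, Sys.subst, Multiset.mem_map]
  constructor
  · rintro ⟨e, ⟨e', he', rfl⟩, t, ht, hx⟩
    rw [Sym2.mem_map] at ht
    obtain ⟨t', ht', rfl⟩ := ht
    rw [Term.mem_vars_subst] at hx
    obtain ⟨y, hy, hx⟩ := hx
    exact ⟨y, ⟨e', he', t', ht', hy⟩, hx⟩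
  · rintro ⟨y, ⟨e', he', t', ht', hy⟩, hx⟩
    exact ⟨_, ⟨e', he', rfl⟩, t'.subst σ, Sym2.mem_map.2 ⟨t', ht', rfl⟩,
      Term.mem_vars_subst.2 ⟨y, hy, hx⟩⟩

theorem occurs_argEqs {x : ℕ} {n : ℕ} {ss ts : Fin n → Term ar} :
    Occurs x (argEqs ss ts) ↔ ∃ i, x ∈ (ss i).vars ∨ x ∈ (ts i).vars := by
  simp only [Occurs, argEqs, Multiset.mem_map]
  constructor
  · rintro ⟨e, ⟨i, _, rfl⟩, t, ht, hx⟩
    rw [Sym2.mem_iff] at ht
    rcases ht with rfl | rfl
    · exact ⟨i, Or.inl hx⟩
    · exact ⟨i, Or.inr hx⟩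
  · rintro ⟨i, h | h⟩
    · exact ⟨_, ⟨i, Finset.mem_univ i, rfl⟩, ss i, by simp, h⟩
    · exact ⟨_, ⟨i, Finset.mem_univ i, rfl⟩, ts i, by simp, h⟩

/-- The solved system `{x ≈ t x | x ∈ X}`. -/
def solvedSys (X : Finset ℕ) (t : ℕ → Term ar) : Sys ar := X.val.map (fun x => s(Term.var x, t x))

theorem occurs_solvedSys {x : ℕ} {X : Finset ℕ} {t : ℕ → Term ar} :
    Occurs x (solvedSys X t) ↔ x ∈ X ∨ ∃ y ∈ X, x ∈ (t y).vars := by
  simp only [Occurs, solvedSys, Multiset.mem_map]
  constructor
  · rintro ⟨e, ⟨y, hy, rfl⟩, s, hs, hx⟩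
    rw [Sym2.mem_iff] at hs
    rcases hs with rfl | rfl
    · simp only [Term.vars, Finset.mem_singleton] at hx
      subst hx
      exact Or.inl hy
    · exact Or.inr ⟨y, hy, hx⟩
  · rintro (h | ⟨y, hy, h⟩)
    · exact ⟨_, ⟨x, h, rfl⟩, Term.var x, by simp, by simp [Term.vars]⟩
    · exact ⟨_, ⟨y, hy, rfl⟩, t y, by simp, h⟩

theorem sys_subst_id {A : Sys ar} {σ : ℕ → Term ar} (h : ∀ x, Occurs x A → σ x = Term.var x) :
    A.subst σ = A := by
  unfold Sys.subst
  conv_rhs => rw [← Multiset.map_id A]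
  apply Multiset.map_congr rfl
  intro e he
  induction e with
  | h a b =>
    simp only [Sym2.map_mk, id_eq]
    rw [Term.subst_id fun x hx => h x ⟨_, he, a, by simp, hx⟩,
      Term.subst_id fun x hx => h x ⟨_, he, b, by simp, hx⟩]

theorem sys_subst_update {A : Sys ar} {x : ℕ} {a : Term ar} (h : ¬ Occurs x A) :
    A.subst (Function.update Term.var x a) = A := by
  apply sys_subst_id
  intro y hy
  rw [Function.update_of_ne]
  rintro rfl
  exact h hy

theorem sys_subst_add (A B : Sys ar) (σ : ℕ → Term ar) :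
    Sys.subst σ (A + B) = A.subst σ + B.subst σ := Multiset.map_add _ _ _

/-- The solved part `{x ≈ t x | x ∈ X}` fits to the active part `A` and the valuation `θ`. -/
structure Compat (E : Set (Term ar × Term ar)) (U : Finset ℕ) (X : Finset ℕ) (t : ℕ → Term ar)
    (A : Sys ar) (θ : ℕ → Term ar) : Prop where
  XU : X ⊆ U
  tU : ∀ x ∈ X, (t x).vars ⊆ U
  AU : ∀ x, Occurs x A → x ∈ U
  Xt : ∀ x ∈ X, ∀ y ∈ X, x ∉ (t y).vars
  XA : ∀ x ∈ X, ¬ Occurs x A
  eqE : ∀ x ∈ X, EqE E (θ x) ((t x).subst θ)

/-- The active part `A` can be solved by an eager derivation, whatever the solved part is, with a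
final valuation which agrees with `θ` on `U`. -/
def Solv (E : Set (Term ar × Term ar)) (U : Finset ℕ) (A : Sys ar) (θ : ℕ → Term ar) : Prop :=
  ∀ (X : Finset ℕ) (t : ℕ → Term ar), Compat E U X t A θ →
    ∃ (U' X' : Finset ℕ) (t' θ' : ℕ → Term ar),
      Relation.ReflTransGen (Step E) (U, solvedSys X t + A) (U', solvedSys X' t') ∧
      (∀ x ∈ X', ∀ y ∈ X', x ∉ (t' y).vars) ∧ (∀ x ∈ U, θ' x = θ x) ∧
      ∀ x ∈ X', EqE E (θ' x) ((t' x).subst θ')

theorem Solv.zero (U : Finset ℕ) (θ : ℕ → Term ar) : Solv E U 0 θ := by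
  intro X t hc
  refine ⟨U, X, t, θ, ?_, hc.Xt, fun x _ => rfl, hc.eqE⟩
  rw [add_zero]

theorem Solv.of_step {U U1 : Finset ℕ} {A A1 : Sys ar} {θ θ1 : ℕ → Term ar}
    (hU : U ⊆ U1) (hθ : ∀ x ∈ U, θ1 x = θ x)
    (h1 : (∀ x, Occurs x A → x ∈ U) → ∀ x, Occurs x A1 → x ∈ U1)
    (h2 : ∀ x ∈ U, Occurs x A1 → Occurs x A)
    (hstep : ∀ P : Sys ar, Relation.ReflTransGen (Step E) (U, P + A) (U1, P + A1))
    (h : Solv E U1 A1 θ1) : Solv E U A θ := by
  intro X t hc
  obtain ⟨U', X', t', θ', g1, g2, g3, g4⟩ := h X t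
    { XU := hc.XU.trans hU
      tU := fun x hx => (hc.tU x hx).trans hU
      AU := h1 hc.AU
      Xt := hc.Xt
      XA := fun x hx hocc => hc.XA x hx (h2 x (hc.XU hx) hocc)
      eqE := fun x hx => by
        rw [hθ x (hc.XU hx), Term.subst_congr fun y hy => hθ y (hc.tU x hx hy)]
        exact hc.eqE x hx }
  exact ⟨U', X', t', θ', (hstep _).trans g1, g2,
    fun x hx => (g3 x (hU hx)).trans (hθ x hx), g4⟩

theorem Solv.triv {U : Finset ℕ} {A : Sys ar} {θ : ℕ → Term ar} (a : Term ar)
    (h : Solv E U A θ) : Solv E U (s(a, a) ::ₘ A) θ := by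
  refine Solv.of_step (Finset.Subset.refl U) (fun _ _ => rfl)
    (fun h x hx => h x (occurs_cons.2 (Or.inr (Or.inr hx))))
    (fun x _ hx => occurs_cons.2 (Or.inr (Or.inr hx))) (fun P => ?_) h
  rw [Multiset.add_cons]
  exact Relation.ReflTransGen.single (Step.triv U _ a)

theorem Solv.dec {U : Finset ℕ} {A : Sys ar} {θ : ℕ → Term ar} (f : F)
    (ss ts : Fin (ar f) → Term ar) (h : Solv E U (argEqs ss ts + A) θ) :
    Solv E U (s(Term.app f ss, Term.app f ts) ::ₘ A) θ := by
  have hocc : ∀ x, Occurs x (argEqs ss ts + A) →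
      Occurs x (s(Term.app f ss, Term.app f ts) ::ₘ A) := by
    intro x hx
    rw [occurs_add, occurs_argEqs] at hx
    rw [occurs_cons]
    rcases hx with ⟨i, hx | hx⟩ | hx
    · exact Or.inl (Term.mem_vars_app.2 ⟨i, hx⟩)
    · exact Or.inr (Or.inl (Term.mem_vars_app.2 ⟨i, hx⟩))
    · exact Or.inr (Or.inr hx)
  refine Solv.of_step (Finset.Subset.refl U) (fun _ _ => rfl)
    (fun h x hx => h x (hocc x hx)) (fun x _ hx => hocc x hx) (fun P => ?_) h
  rw [Multiset.add_cons]
  have e : P + (argEqs ss ts + A) = argEqs ss ts + (P + A) := by abel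
  rw [e]
  exact Relation.ReflTransGen.single (Step.dec U _ f ss ts)

theorem mem_vars_update {x y z : ℕ} {a : Term ar}
    (h : z ∈ (Function.update (Term.var : ℕ → Term ar) x a y).vars) :
    z ∈ a.vars ∨ (z = y ∧ y ≠ x) := by
  by_cases hy : y = x
  · subst hy
    rw [Function.update_self] at h
    exact Or.inl h
  · rw [Function.update_of_ne hy] at h
    simp only [Term.vars, Finset.mem_singleton] at h
    exact Or.inr ⟨h, hy⟩

theorem Solv.ve {U : Finset ℕ} {A : Sys ar} {θ : ℕ → Term ar} {x : ℕ} {a : Term ar}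
    (hx : x ∉ a.vars) (hθ : EqE E (θ x) (a.subst θ))
    (h : Solv E U (A.subst (Function.update Term.var x a)) θ) :
    Solv E U (s(Term.var x, a) ::ₘ A) θ := by
  classical
  intro X t hc
  have hxU : x ∈ U := hc.AU x (occurs_cons.2 (Or.inl (by simp [Term.vars])))
  have haU : ∀ y ∈ a.vars, y ∈ U := fun y hy => hc.AU y (occurs_cons.2 (Or.inr (Or.inl hy)))
  have hAU : ∀ y, Occurs y A → y ∈ U := fun y hy => hc.AU y (occurs_cons.2 (Or.inr (Or.inr hy)))
  have hxX : x ∉ X := fun hxX => hc.XA x hxX (occurs_cons.2 (Or.inl (by simp [Term.vars])))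
  have hXa : ∀ y ∈ X, y ∉ a.vars := fun y hy hya =>
    hc.XA y hy (occurs_cons.2 (Or.inr (Or.inl hya)))
  have hXA : ∀ y ∈ X, ¬ Occurs y A := fun y hy hya =>
    hc.XA y hy (occurs_cons.2 (Or.inr (Or.inr hya)))
  set σ : ℕ → Term ar := Function.update Term.var x a with hσ
  set t1 : ℕ → Term ar := fun y => if y = x then a else (t y).subst σ with ht1
  have ht1x : t1 x = a := by simp [ht1]
  have ht1y : ∀ y ∈ X, t1 y = (t y).subst σ := by
    intro y hy
    have : y ≠ x := fun h => hxX (h ▸ hy)
    simp [ht1, this]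
  have hsys : solvedSys (insert x X) t1 = s(Term.var x, a) ::ₘ (solvedSys X t).subst σ := by
    unfold solvedSys
    rw [Finset.insert_val_of_notMem hxX, Multiset.map_cons, ht1x]
    congr 1
    unfold Sys.subst
    rw [Multiset.map_map]
    apply Multiset.map_congr rfl
    intro y hy
    have hy' : y ∈ X := hy
    have hne : y ≠ x := fun h => hxX (h ▸ hy')
    simp only [Function.comp_apply, Sym2.map_mk, Term.subst, ht1y y hy', hσ,
      Function.update_of_ne hne]
  have hcompat : Compat E U (insert x X) t1 (A.subst σ) θ :=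
    { XU := by
        intro y hy
        rw [Finset.mem_insert] at hy
        rcases hy with rfl | hy
        · exact hxU
        · exact hc.XU hy
      tU := by
        intro y hy z hz
        rw [Finset.mem_insert] at hy
        rcases hy with rfl | hy
        · rw [ht1x] at hz
          exact haU z hz
        · rw [ht1y y hy, Term.mem_vars_subst] at hz
          obtain ⟨v, hv, hz⟩ := hz
          rcases mem_vars_update hz with hz | ⟨rfl, _⟩
          · exact haU z hz
          · exact hc.tU y hy hv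
      AU := by
        intro z hz
        rw [occurs_subst] at hz
        obtain ⟨v, hv, hz⟩ := hz
        rcases mem_vars_update hz with hz | ⟨rfl, _⟩
        · exact haU z hz
        · exact hAU _ hv
      Xt := by
        intro y hy z hz hyz
        rw [Finset.mem_insert] at hy hz
        rcases hz with rfl | hz
        · rw [ht1x] at hyz
          rcases hy with rfl | hy
          · exact hx hyz
          · exact hXa y hy hyz
        · rw [ht1y z hz, Term.mem_vars_subst] at hyz
          obtain ⟨v, hv, hyz⟩ := hyz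
          rcases mem_vars_update hyz with h1 | ⟨rfl, hne⟩
          · rcases hy with rfl | hy
            · exact hx h1
            · exact hXa y hy h1
          · rcases hy with rfl | hy
            · exact hne rfl
            · exact hc.Xt y hy z hz hv
      XA := by
        intro y hy hocc
        rw [Finset.mem_insert] at hy
        rw [occurs_subst] at hocc
        obtain ⟨v, hv, hyz⟩ := hocc
        rcases mem_vars_update hyz with h1 | ⟨rfl, hne⟩
        · rcases hy with rfl | hy
          · exact hx h1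
          · exact hXa y hy h1
        · rcases hy with rfl | hy
          · exact hne rfl
          · exact hXA y hy hv
      eqE := by
        intro y hy
        rw [Finset.mem_insert] at hy
        rcases hy with rfl | hy
        · rw [ht1x]; exact hθ
        · rw [ht1y y hy]
          refine EqE.trans _ _ _ (hc.eqE y hy) ?_
          rw [Term.subst_subst]
          apply EqE.subst_congr
          intro z _
          by_cases hzx : z = x
          · subst hzx
            simp only [hσ, Function.update_self]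
            exact hθ
          · simp only [hσ, Function.update_of_ne hzx, Term.subst]
            exact EqE.refl _ }
  obtain ⟨U', X', t', θ', g1, g2, g3, g4⟩ := h _ _ hcompat
  refine ⟨U', X', t', θ', ?_, g2, g3, g4⟩
  refine Relation.ReflTransGen.trans ?_ g1
  rw [hsys, Multiset.cons_add, Multiset.add_cons, ← sys_subst_add]
  by_cases hocc : Occurs x (solvedSys X t + A)
  · exact Relation.ReflTransGen.single (Step.ve U _ x a hx hocc)
  · rw [sys_subst_update hocc]

theorem mem_vars_fill {x : ℕ} {C : Ctx ar} {r : Term ar} (s : Term ar)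
    (h : x ∈ (C.fill r).vars) : x ∈ r.vars ∨ x ∈ (C.fill s).vars := by
  induction C with
  | hole => exact Or.inl h
  | arg f i ts C ih =>
    simp only [Ctx.fill, Term.mem_vars_app] at h ⊢
    obtain ⟨j, hj⟩ := h
    by_cases hji : j = i
    · subst hji
      rw [Function.update_self] at hj
      rcases ih hj with h | h
      · exact Or.inl h
      · exact Or.inr ⟨j, by rw [Function.update_self]; exact h⟩
    · rw [Function.update_of_ne hji] at hj
      exact Or.inr ⟨j, by rw [Function.update_of_ne hji]; exact hj⟩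

theorem mem_vars_fill_of_mem {x : ℕ} {C : Ctx ar} {s : Term ar}
    (h : x ∈ s.vars) : x ∈ (C.fill s).vars := by
  induction C with
  | hole => exact h
  | arg f i ts C ih =>
    simp only [Ctx.fill, Term.mem_vars_app]
    exact ⟨i, by rw [Function.update_self]; exact ih⟩

theorem fill_subst {C : Ctx ar} {s : Term ar} {σ : ℕ → Term ar} (r : Term ar)
    (h : ∀ x ∈ (C.fill s).vars, σ x = Term.var x) :
    (C.fill r).subst σ = C.fill (r.subst σ) := by
  induction C with
  | hole => rfl
  | arg f i ts C ih =>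
    simp only [Ctx.fill, Term.subst]
    congr 1
    funext j
    by_cases hji : j = i
    · subst hji
      simp only [Function.update_self]
      apply ih
      intro x hx
      apply h
      simp only [Ctx.fill, Term.mem_vars_app]
      exact ⟨j, by rw [Function.update_self]; exact hx⟩
    · simp only [Function.update_of_ne hji]
      apply Term.subst_id
      intro x hx
      apply h
      simp only [Ctx.fill, Term.mem_vars_app]
      exact ⟨j, by rw [Function.update_of_ne hji]; exact hx⟩

theorem Solv.lpApp {U : Finset ℕ} {A : Sys ar} {θ θ1 : ℕ → Term ar} {C : Ctx ar} {f : F}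
    {ts ls : Fin (ar f) → Term ar} {r v : Term ar} (hlr : FreshVariant E U (Term.app f ls) r)
    (heager : ∀ x, v = Term.var x → x ∈ (C.fill (Term.app f ts)).vars)
    (hθ : ∀ x ∈ U, θ1 x = θ x)
    (h : Solv E (U ∪ ((Term.app f ls).vars ∪ r.vars)) (argEqs ts ls + s(C.fill r, v) ::ₘ A) θ1) :
    Solv E U (s(C.fill (Term.app f ts), v) ::ₘ A) θ := by
  have hdisj : Disjoint U ((Term.app f ls).vars ∪ r.vars) := by
    obtain ⟨_, _, _, _, _, _, _, h⟩ := hlr
    exact h
  have hocc : ∀ x, Occurs x (argEqs ts ls + s(C.fill r, v) ::ₘ A) →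
      x ∈ (Term.app f ls).vars ∪ r.vars ∨ Occurs x (s(C.fill (Term.app f ts), v) ::ₘ A) := by
    intro x hx
    rw [occurs_add, occurs_argEqs, occurs_cons] at hx
    rw [occurs_cons]
    rcases hx with ⟨i, hx | hx⟩ | hx | hx | hx
    · exact Or.inr (Or.inl (mem_vars_fill_of_mem (Term.mem_vars_app.2 ⟨i, hx⟩)))
    · exact Or.inl (Finset.mem_union_left _ (Term.mem_vars_app.2 ⟨i, hx⟩))
    · rcases mem_vars_fill (Term.app f ts) hx with hx | hx
      · exact Or.inl (Finset.mem_union_right _ hx)
      · exact Or.inr (Or.inl hx)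
    · exact Or.inr (Or.inr (Or.inl hx))
    · exact Or.inr (Or.inr (Or.inr hx))
  refine Solv.of_step Finset.subset_union_left hθ (fun h x hx => ?_) (fun x hxU hx => ?_)
    (fun P => ?_) h
  · rcases hocc x hx with hx | hx
    · exact Finset.mem_union_right _ hx
    · exact Finset.mem_union_left _ (h x hx)
  · rcases hocc x hx with hx | hx
    · exact absurd hx (Finset.disjoint_left.1 hdisj hxU)
    · exact hx
  · rw [Multiset.add_cons]
    have e : P + (argEqs ts ls + s(C.fill r, v) ::ₘ A) =
        argEqs ts ls + s(C.fill r, v) ::ₘ (P + A) := by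
      rw [← Multiset.singleton_add, ← Multiset.singleton_add s(C.fill r, v) (P + A)]
      abel
    rw [e]
    exact Relation.ReflTransGen.single (Step.lpApp U _ C f ts ls r v hlr heager)

theorem Solv.lpVar {U : Finset ℕ} {A : Sys ar} {θ θ1 : ℕ → Term ar} {C : Ctx ar} {f : F}
    {ts : Fin (ar f) → Term ar} {z : ℕ} {r v : Term ar} (hlr : FreshVariant E U (Term.var z) r)
    (heager : ∀ x, v = Term.var x → x ∈ (C.fill (Term.app f ts)).vars)
    (hθ : ∀ x ∈ U, θ1 x = θ x)
    (h : Solv E (U ∪ ((Term.var z : Term ar).vars ∪ r.vars))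
      (s(Term.app f ts, Term.var z) ::ₘ s(C.fill r, v) ::ₘ A) θ1) :
    Solv E U (s(C.fill (Term.app f ts), v) ::ₘ A) θ := by
  have hdisj : Disjoint U ((Term.var z : Term ar).vars ∪ r.vars) := by
    obtain ⟨_, _, _, _, _, _, _, h⟩ := hlr
    exact h
  have hocc : ∀ x, Occurs x (s(Term.app f ts, Term.var z) ::ₘ s(C.fill r, v) ::ₘ A) →
      x ∈ (Term.var z : Term ar).vars ∪ r.vars ∨
        Occurs x (s(C.fill (Term.app f ts), v) ::ₘ A) := by
    intro x hx
    rw [occurs_cons, occurs_cons] at hx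
    rw [occurs_cons]
    rcases hx with hx | hx | hx | hx | hx
    · exact Or.inr (Or.inl (mem_vars_fill_of_mem hx))
    · exact Or.inl (Finset.mem_union_left _ hx)
    · rcases mem_vars_fill (Term.app f ts) hx with hx | hx
      · exact Or.inl (Finset.mem_union_right _ hx)
      · exact Or.inr (Or.inl hx)
    · exact Or.inr (Or.inr (Or.inl hx))
    · exact Or.inr (Or.inr (Or.inr hx))
  refine Solv.of_step Finset.subset_union_left hθ (fun h x hx => ?_) (fun x hxU hx => ?_)
    (fun P => ?_) h
  · rcases hocc x hx with hx | hx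
    · exact Finset.mem_union_right _ hx
    · exact Finset.mem_union_left _ (h x hx)
  · rcases hocc x hx with hx | hx
    · exact absurd hx (Finset.disjoint_left.1 hdisj hxU)
    · exact hx
  · rw [Multiset.add_cons, Multiset.add_cons, Multiset.add_cons]
    exact Relation.ReflTransGen.single (Step.lpVar U _ C f ts z r v hlr heager)

end Pool.Agent.TH260.EU
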