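import Mathlib
import Pool.Agent.TH260.EU.Solve

set_option autoImplicit false

/-!
# The simulation: planned systems are solvable by eager derivations
-/

namespace Pool.Agent.TH260.EU

universe u

variable {F : Type u} {ar : F → ℕ} {E : Set (Term ar × Term ar)}

/-- An equation together with its cost. -/
abbrev Item {F : Type u} (ar : F → ℕ) : Type u := Term ar × Term ar × Multiset ℕ

/-- The system of a multiset of items. -/
def act (G : Multiset (Item ar)) : Sys ar := G.map (fun g => s(g.1, g.2.1))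

theorem act_cons (g : Item ar) (G : Multiset (Item ar)) :
    act (g ::ₘ G) = s(g.1, g.2.1) ::ₘ act G := Multiset.map_cons _ _ _

theorem act_add (G H : Multiset (Item ar)) : act (G + H) = act G + act H := Multiset.map_add _ _ _

/-- Both sides of the equation have a common value, with the given total cost. -/
def Planned (E : Set (Term ar × Term ar)) (θ : ℕ → Term ar) (g : Item ar) : Prop :=
  ∃ (w : Term ar) (M₁ M₂ : Multiset ℕ), Ev E g.1 θ w M₁ ∧ Ev E g.2.1 θ w M₂ ∧ g.2.2 = M₁ + M₂

/-- The cost grows by levels less than `K`. -/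
def inc (K : ℕ) (g g' : Item ar) : Prop :=
  ∃ δ : Multiset ℕ, (∀ a ∈ δ, a < K) ∧ g'.2.2 = g.2.2 + δ

theorem inc_refl (K : ℕ) (g : Item ar) : inc K g g := ⟨0, by simp, by simp⟩

instance inc_trans (K : ℕ) : IsTrans (Item ar) (inc K) where
  trans := by
    rintro a b c ⟨δ, h1, h2⟩ ⟨δ', h3, h4⟩
    refine ⟨δ + δ', fun x hx => ?_, by rw [h4, h2, add_assoc]⟩
    rcases Multiset.mem_add.1 hx with hx | hx
    · exact h1 x hx
    · exact h3 x hx

theorem rel_inc_refl (K : ℕ) (G : Multiset (Item ar)) : Multiset.Rel (inc K) G G :=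
  Multiset.rel_refl_of_refl_on fun g _ => inc_refl K g

theorem rel_inc_mono {k K : ℕ} (h : k ≤ K) {G H : Multiset (Item ar)}
    (hr : Multiset.Rel (inc k) G H) : Multiset.Rel (inc K) G H :=
  hr.mono fun _ _ _ _ ⟨δ, h1, h2⟩ => ⟨δ, fun a ha => lt_of_lt_of_le (h1 a ha) h, h2⟩

/-- The number of items with non-zero cost. -/
def cnt (G : Multiset (Item ar)) : ℕ := G.countP (fun g => g.2.2 ≠ 0)

/-- The total cost. -/
def tot (G : Multiset (Item ar)) : Multiset ℕ := (G.map (fun g => g.2.2)).sum

/-- The size of a term. -/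
def Term.size : Term ar → ℕ
  | .var _ => 1
  | .app _ ts => 1 + ∑ i, (ts i).size

/-- The total size of the left-hand sides, instantiated. -/
def sz (θ : ℕ → Term ar) (G : Multiset (Item ar)) : ℕ := (G.map (fun g => (g.1.subst θ).size)).sum

theorem Term.size_pos (t : Term ar) : 0 < t.size := by
  cases t <;> simp [Term.size]

theorem Term.size_lt_app (f : F) (ts : Fin (ar f) → Term ar) (i : Fin (ar f)) :
    (ts i).size < (Term.app f ts).size := by
  simp only [Term.size]
  have := Finset.single_le_sum (f := fun i => (ts i).size) (fun _ _ => Nat.zero_le _)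
    (Finset.mem_univ i)
  omega

theorem Term.size_subst {x : ℕ} {t : Term ar} (θ : ℕ → Term ar) (h : x ∈ t.vars) :
    t = Term.var x ∨ (θ x).size < (t.subst θ).size := by
  induction t with
  | var y =>
    simp only [Term.vars, Finset.mem_singleton] at h
    exact Or.inl (by rw [h])
  | app f ts ih =>
    right
    rw [Term.mem_vars_app] at h
    obtain ⟨i, hi⟩ := h
    have h1 : (θ x).size ≤ ((ts i).subst θ).size := by
      rcases ih i hi with h | h
      · rw [h]; exact le_rfl
      · exact h.le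
    exact lt_of_le_of_lt h1 (Term.size_lt_app f (fun i => (ts i).subst θ) i)

/-- The continuation: any later state of the other equations is solvable. -/
def Cont (E : Set (Term ar × Term ar)) (K : ℕ) (U : Finset ℕ) (θ : ℕ → Term ar)
    (ext : Multiset (Item ar)) : Prop :=
  ∀ (U' : Finset ℕ) (θ' : ℕ → Term ar) (ext' : Multiset (Item ar)), U ⊆ U' →
    (∀ x ∈ U, θ' x = θ x) → (∀ x, Occurs x (act ext') → x ∈ U') →
    (∀ g ∈ ext', Planned E θ' g) → Multiset.Rel (inc K) ext ext' → Solv E U' (act ext') θ'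

/-- The main claim for a group `G` of equations and other equations `ext`. -/
def Goal (E : Set (Term ar × Term ar)) (K : ℕ) (G ext : Multiset (Item ar)) (U : Finset ℕ)
    (θ : ℕ → Term ar) : Prop :=
  (∀ x, Occurs x (act G) → x ∈ U) → (∀ x, Occurs x (act ext) → x ∈ U) →
    (∀ g ∈ G, Planned E θ g) → (∀ g ∈ ext, Planned E θ g) → (∀ g ∈ G, ∀ a ∈ g.2.2, a < K) →
    Cont E K U θ ext → Solv E U (act (G + ext)) θ

theorem Cont.mono {K k : ℕ} {U U1 : Finset ℕ} {θ θ1 : ℕ → Term ar} {ext ext1 : Multiset (Item ar)}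
    (h : Cont E K U θ ext) (hU : U ⊆ U1) (hθ : ∀ x ∈ U, θ1 x = θ x) (hk : k ≤ K)
    (hr : Multiset.Rel (inc k) ext ext1) : Cont E K U1 θ1 ext1 := by
  intro U' θ' ext' h1 h2 h3 h4 h5
  exact h U' θ' ext' (hU.trans h1) (fun x hx => (h2 x (hU hx)).trans (hθ x hx)) h3 h4
    (Multiset.Rel.trans _ (rel_inc_mono hk hr) h5)

theorem occurs_act {x : ℕ} {G : Multiset (Item ar)} {g : Item ar} (hg : g ∈ G)
    (hx : x ∈ g.1.vars ∨ x ∈ g.2.1.vars) : Occurs x (act G) := by
  refine ⟨s(g.1, g.2.1), Multiset.mem_map.2 ⟨g, hg, rfl⟩, ?_⟩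
  rcases hx with hx | hx
  · exact ⟨g.1, by simp, hx⟩
  · exact ⟨g.2.1, by simp, hx⟩

theorem planned_congr {G : Multiset (Item ar)} {U : Finset ℕ} {θ θ' : ℕ → Term ar}
    (hU : ∀ x, Occurs x (act G) → x ∈ U) (hθ : ∀ x ∈ U, θ' x = θ x)
    (hG : ∀ g ∈ G, Planned E θ g) : ∀ g ∈ G, Planned E θ' g := by
  intro g hg
  obtain ⟨w, M₁, M₂, h1, h2, h3⟩ := hG g hg
  exact ⟨w, M₁, M₂, h1.congr fun x hx => hθ x (hU x (occurs_act hg (Or.inl hx))),
    h2.congr fun x hx => hθ x (hU x (occurs_act hg (Or.inr hx))), h3⟩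

theorem planned_var {θ : ℕ → Term ar} {g : Item ar} {x : ℕ} {a : Term ar}
    (hg : s(g.1, g.2.1) = s(Term.var x, a)) (hP : Planned E θ g) :
    Ev E a θ (θ x) g.2.2 := by
  obtain ⟨w, M₁, M₂, h1, h2, h3⟩ := hP
  rw [Sym2.eq_iff] at hg
  rcases hg with ⟨e1, e2⟩ | ⟨e1, e2⟩
  · rw [e1] at h1
    rw [e2] at h2
    obtain ⟨rfl, rfl⟩ := h1.var_inv
    rw [h3, zero_add]; exact h2
  · rw [e1] at h1
    rw [e2] at h2
    obtain ⟨rfl, rfl⟩ := h2.var_inv
    rw [h3, add_zero]; exact h1

/-- The effect of Variable Elimination on the other equations. -/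
theorem ve_items {θ : ℕ → Term ar} {x : ℕ} {a : Term ar} {M : Multiset ℕ} {L : ℕ}
    (ha : Ev E a θ (θ x) M) (hL : ∀ b ∈ M, b < L) : ∃ upd : Item ar → Item ar,
      (∀ g, (upd g).1 = g.1.subst (Function.update Term.var x a) ∧
        (upd g).2.1 = g.2.1.subst (Function.update Term.var x a) ∧ inc L g (upd g)) ∧
      ∀ g, Planned E θ g → Planned E θ (upd g) := by
  have key : ∀ g : Item ar, ∃ g' : Item ar, (g'.1 = g.1.subst (Function.update Term.var x a) ∧
        g'.2.1 = g.2.1.subst (Function.update Term.var x a) ∧ inc L g g') ∧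
      (Planned E θ g → Planned E θ g') := by
    intro g
    by_cases hP : Planned E θ g
    · obtain ⟨w, M₁, M₂, h1, h2, h3⟩ := hP
      have hγ : ∀ t : Term ar, ∀ y ∈ t.vars, ∃ K : Multiset ℕ, (∀ b ∈ K, b < L) ∧
          Ev E ((Function.update (Term.var : ℕ → Term ar) x a) y) θ (θ y) K := by
        intro t y _
        by_cases hy : y = x
        · subst hy
          exact ⟨M, hL, by rw [Function.update_self]; exact ha⟩
        · exact ⟨0, by simp, by rw [Function.update_of_ne hy]; exact Ev.var y θ⟩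
      obtain ⟨δ₁, hδ₁, e1⟩ := h1.inst (hγ g.1)
      obtain ⟨δ₂, hδ₂, e2⟩ := h2.inst (hγ g.2.1)
      refine ⟨(g.1.subst (Function.update Term.var x a),
        g.2.1.subst (Function.update Term.var x a), g.2.2 + (δ₁ + δ₂)), ⟨rfl, rfl, δ₁ + δ₂, ?_, rfl⟩,
        fun _ => ⟨w, _, _, e1, e2, ?_⟩⟩
      · intro b hb
        rcases Multiset.mem_add.1 hb with hb | hb
        · exact hδ₁ b hb
        · exact hδ₂ b hb
      · show g.2.2 + (δ₁ + δ₂) = M₁ + δ₁ + (M₂ + δ₂)
        rw [h3]; abel
    · exact ⟨(g.1.subst (Function.update Term.var x a),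
        g.2.1.subst (Function.update Term.var x a), g.2.2), ⟨rfl, rfl, inc_refl L g⟩,
        fun h => absurd h hP⟩
  choose upd h1 h2 using key
  exact ⟨upd, h1, h2⟩

theorem act_map_upd {σ : ℕ → Term ar} {upd : Item ar → Item ar}
    (h : ∀ g, (upd g).1 = g.1.subst σ ∧ (upd g).2.1 = g.2.1.subst σ)
    (G : Multiset (Item ar)) : act (G.map upd) = (act G).subst σ := by
  unfold act Sys.subst
  rw [Multiset.map_map, Multiset.map_map]
  apply Multiset.map_congr rfl
  intro g _
  simp only [Function.comp_apply, Sym2.map_mk, (h g).1, (h g).2]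

theorem goal_ve {K : ℕ} {U : Finset ℕ} {θ : ℕ → Term ar} {x : ℕ} {a : Term ar} {g : Item ar}
    {G₀ ext : Multiset (Item ar)} {L : ℕ} (hLK : L ≤ K) (hg : s(g.1, g.2.1) = s(Term.var x, a))
    (hx : x ∉ a.vars) (hL : ∀ b ∈ g.2.2, b < L)
    (IH : ∀ upd : Item ar → Item ar,
      (∀ g, (upd g).1 = g.1.subst (Function.update Term.var x a) ∧
        (upd g).2.1 = g.2.1.subst (Function.update Term.var x a) ∧ inc L g (upd g)) →
      Goal E K (G₀.map upd) (ext.map upd) U θ) : Goal E K (g ::ₘ G₀) ext U θ := by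
  intro hGU heU hGP heP hGK hcont
  have ha := planned_var hg (hGP g (Multiset.mem_cons_self _ _))
  obtain ⟨upd, hupd, hupdP⟩ := ve_items ha hL
  have hsub : ∀ H : Multiset (Item ar), act (H.map upd) =
      (act H).subst (Function.update Term.var x a) :=
    act_map_upd fun g => ⟨(hupd g).1, (hupd g).2.1⟩
  rw [Multiset.cons_add, act_cons, hg]
  refine Solv.ve hx ha.sound ?_
  rw [act_add, sys_subst_add, ← hsub, ← hsub, ← act_add]
  have hGU' : ∀ y, Occurs y (s(Term.var x, a) ::ₘ act G₀) → y ∈ U := by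
    intro y hy
    apply hGU
    rw [act_cons, hg]
    exact hy
  have haU : ∀ y ∈ a.vars, y ∈ U := fun y hy => hGU' y (occurs_cons.2 (Or.inr (Or.inl hy)))
  refine IH upd hupd ?_ ?_ ?_ ?_ ?_ ?_
  · intro y hy
    rw [hsub, occurs_subst] at hy
    obtain ⟨v, hv, hy⟩ := hy
    rcases mem_vars_update hy with hy | ⟨rfl, _⟩
    · exact haU y hy
    · exact hGU' _ (occurs_cons.2 (Or.inr (Or.inr hv)))
  · intro y hy
    rw [hsub, occurs_subst] at hy
    obtain ⟨v, hv, hy⟩ := hy
    rcases mem_vars_update hy with hy | ⟨rfl, _⟩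
    · exact haU y hy
    · exact heU _ hv
  · intro g' hg'
    obtain ⟨g'', hg'', rfl⟩ := Multiset.mem_map.1 hg'
    exact hupdP _ (hGP _ (Multiset.mem_cons_of_mem hg''))
  · intro g' hg'
    obtain ⟨g'', hg'', rfl⟩ := Multiset.mem_map.1 hg'
    exact hupdP _ (heP _ hg'')
  · intro g' hg' b hb
    obtain ⟨g'', hg'', rfl⟩ := Multiset.mem_map.1 hg'
    obtain ⟨δ, hδ, hδ'⟩ := (hupd g'').2.2
    rw [hδ'] at hb
    rcases Multiset.mem_add.1 hb with hb | hb
    · exact hGK _ (Multiset.mem_cons_of_mem hg'') b hb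
    · exact lt_of_lt_of_le (hδ b hb) hLK
  · refine hcont.mono (Finset.Subset.refl U) (fun _ _ => rfl) hLK ?_
    rw [Multiset.rel_map_right]
    exact Multiset.rel_refl_of_refl_on fun g _ => (hupd g).2.2

theorem act_args {n : ℕ} (ss ts : Fin n → Term ar) (A : Fin n → Multiset ℕ) :
    act ((Finset.univ : Finset (Fin n)).val.map fun i => (ss i, ts i, A i)) = argEqs ss ts := by
  unfold act argEqs
  rw [Multiset.map_map]
  rfl

theorem exists_bound (U : Finset ℕ) : ∃ N, ∀ x ∈ U, x < N :=
  ⟨U.sup id + 1, fun _ hx => Nat.lt_succ_of_le (Finset.le_sup (f := id) hx)⟩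

theorem ev_subst_self {U : Finset ℕ} {θ θ' : ℕ → Term ar} (h : ∀ x ∈ U, θ' x = θ x)
    {t : Term ar} (ht : ∀ x ∈ t.vars, x ∈ U) : Ev E t θ' (t.subst θ) 0 := by
  have := Ev.exact (E := E) t θ'
  rwa [Term.subst_congr fun x hx => h x (ht x hx)] at this

theorem goal_lp {K : ℕ} {U : Finset ℕ} {θ : ℕ → Term ar} {g : Item ar}
    {G₀ ext : Multiset (Item ar)} {s t w : Term ar} {M₁ M₂ : Multiset ℕ}
    (IHK : ∀ k < K, ∀ (G ext : Multiset (Item ar)) (U : Finset ℕ) (θ : ℕ → Term ar),
      Goal E k G ext U θ)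
    (hg : s(g.1, g.2.1) = s(s, t)) (h1 : Ev E s θ w M₁) (h2 : Ev E t θ w M₂)
    (hM : g.2.2 = M₁ + M₂) (hM₁ : M₁ ≠ 0) (heager : ∀ x, t = Term.var x → x ∈ s.vars)
    (IH : ∀ (k : ℕ) (M' : Multiset ℕ) (m' : Item ar) (G₀' ext' : Multiset (Item ar))
      (U' : Finset ℕ) (θ' : ℕ → Term ar), M₁ = k ::ₘ M' →
      (∃ δ : Multiset ℕ, (∀ a ∈ δ, a < k) ∧ m'.2.2 = M' + M₂ + δ) →
      Multiset.Rel (inc k) G₀ G₀' → Goal E K (m' ::ₘ G₀') ext' U' θ') :
    Goal E K (g ::ₘ G₀) ext U θ := by
  intro hGU heU hGP heP hGK hcont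
  obtain ⟨C, f, ts, ls, r, τ, A, k, w', N, M', e1, hrule, e3, e4, e5, e6, e7⟩ := h1.extract hM₁
  subst e1
  rw [Multiset.cons_add, act_cons, hg]
  have hGU' : ∀ y, Occurs y (s(C.fill (Term.app f ts), t) ::ₘ act G₀) → y ∈ U := by
    intro y hy
    apply hGU
    rw [act_cons, hg]
    exact hy
  have hsU : ∀ y ∈ (C.fill (Term.app f ts)).vars, y ∈ U :=
    fun y hy => hGU' y (occurs_cons.2 (Or.inl hy))
  have htU : ∀ y ∈ t.vars, y ∈ U :=
    fun y hy => hGU' y (occurs_cons.2 (Or.inr (Or.inl hy)))
  have hG₀U : ∀ y, Occurs y (act G₀) → y ∈ U :=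
    fun y hy => hGU' y (occurs_cons.2 (Or.inr (Or.inr hy)))
  have htsU : ∀ i, ∀ y ∈ (ts i).vars, y ∈ U :=
    fun i y hy => hsU y (mem_vars_fill_of_mem (Term.mem_vars_app.2 ⟨i, hy⟩))
  have hkK : k < K := by
    refine hGK g (Multiset.mem_cons_self _ _) k ?_
    rw [hM, e6]; simp
  obtain ⟨N₀, hN₀⟩ := exists_bound U
  have hG₀P : ∀ g ∈ G₀, Planned E θ g := fun g hg => hGP g (Multiset.mem_cons_of_mem hg)
  have hG₀K : ∀ g ∈ G₀, ∀ a ∈ g.2.2, a < K := fun g hg => hGK g (Multiset.mem_cons_of_mem hg)
  have hMK : ∀ a ∈ M' + M₂, a < K := by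
    intro a ha
    refine hGK g (Multiset.mem_cons_self _ _) a ?_
    rw [hM, e6, Multiset.cons_add]
    exact Multiset.mem_cons_of_mem ha
  cases hrule with
  | app _ _ hE =>
    -- the renaming
    set π : ℕ → Term ar := fun x => Term.var (x + N₀) with hπ
    set θ1 : ℕ → Term ar := fun x => if x < N₀ then θ x else τ (x - N₀) with hθ1
    have hθ1U : ∀ x ∈ U, θ1 x = θ x := fun x hx => by simp [hθ1, hN₀ x hx]
    have hπθ : ∀ y, (π y).subst θ1 = τ y := fun y => by simp [hπ, hθ1, Term.subst]
    have hfresh : FreshVariant E U (Term.app f (fun i => (ls i).subst π)) (r.subst π) := by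
      refine ⟨Term.app f ls, r, fun x => x + N₀, hE, fun x y h => ?_, rfl, rfl, ?_⟩
      · simpa using h
      · rw [Finset.disjoint_left]
        intro x hxU hx
        have hlt := hN₀ x hxU
        have hge : N₀ ≤ x := by
          rcases Finset.mem_union.1 hx with hx | hx
          · have hx' : x ∈ ((Term.app f ls).subst π).vars := hx
            rw [Term.mem_vars_subst] at hx'
            obtain ⟨y, _, hy⟩ := hx'
            simp only [hπ, Term.vars, Finset.mem_singleton] at hy
            omega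
          · rw [Term.mem_vars_subst] at hx
            obtain ⟨y, _, hy⟩ := hx
            simp only [hπ, Term.vars, Finset.mem_singleton] at hy
            omega
        omega
    refine Solv.lpApp hfresh heager hθ1U ?_
    set U1 : Finset ℕ := U ∪ ((Term.app f (fun i => (ls i).subst π)).vars ∪ (r.subst π).vars)
      with hU1
    have hUU1 : U ⊆ U1 := Finset.subset_union_left
    set m : Item ar := (C.fill (r.subst π), t, M' + M₂) with hm
    set H : Multiset (Item ar) :=
      (Finset.univ : Finset (Fin (ar f))).val.map (fun i => (ts i, (ls i).subst π, A i)) with hH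
    have hrU1 : ∀ y ∈ (r.subst π).vars, y ∈ U1 := fun y hy =>
      Finset.mem_union_right _ (Finset.mem_union_right _ hy)
    have hlU1 : ∀ i, ∀ y ∈ ((ls i).subst π).vars, y ∈ U1 := fun i y hy =>
      Finset.mem_union_right _ (Finset.mem_union_left _ (Term.mem_vars_app.2 ⟨i, hy⟩))
    have hmU1 : ∀ y, Occurs y (act (m ::ₘ (G₀ + ext))) → y ∈ U1 := by
      intro y hy
      rw [act_cons, occurs_cons, act_add, occurs_add] at hy
      rcases hy with hy | hy | hy | hy
      · rcases mem_vars_fill (Term.app f ts) hy with hy | hy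
        · exact hrU1 y hy
        · exact hUU1 (hsU y hy)
      · exact hUU1 (htU y hy)
      · exact hUU1 (hG₀U y hy)
      · exact hUU1 (heU y hy)
    have hgoal := IHK k hkK H (m ::ₘ (G₀ + ext)) U1 θ1 ?_ hmU1 ?_ ?_ ?_ ?_
    · rw [act_add, hH, act_args, act_cons] at hgoal
      exact hgoal
    · intro y hy
      rw [hH, act_args, occurs_argEqs] at hy
      obtain ⟨i, hy | hy⟩ := hy
      · exact hUU1 (htsU i y hy)
      · exact hlU1 i y hy
    · intro g' hg'
      obtain ⟨i, _, rfl⟩ := Multiset.mem_map.1 hg'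
      exact ⟨(ts i).subst θ, 0, A i, ev_subst_self hθ1U (htsU i),
        (e3 i).inst_exact fun y _ => hπθ y, by simp⟩
    · intro g' hg'
      rcases Multiset.mem_cons.1 hg' with rfl | hg'
      · exact ⟨w, M', M₂, e7 _ _ (fun x hx => hθ1U x (hsU x hx))
          (e5.inst_exact fun y _ => hπθ y), h2.congr fun x hx => hθ1U x (htU x hx), rfl⟩
      · rcases Multiset.mem_add.1 hg' with hg' | hg'
        · exact planned_congr hG₀U hθ1U hG₀P g' hg'
        · exact planned_congr heU hθ1U heP g' hg'
    · intro g' hg' a ha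
      obtain ⟨i, _, rfl⟩ := Multiset.mem_map.1 hg'
      exact e4 i a ha
    · -- the continuation
      intro U2 θ2 ext2 c1 c2 c3 c4 c5
      rw [Multiset.rel_cons_left] at c5
      obtain ⟨m', X, cm, c5, rfl⟩ := c5
      rw [Multiset.rel_add_left] at c5
      obtain ⟨G₀', ext', cG, ce, rfl⟩ := c5
      have hmem : ∀ g' ∈ m' ::ₘ G₀', ∀ a ∈ g'.2.2, a < K := by
        intro g' hg' a ha
        rcases Multiset.mem_cons.1 hg' with rfl | hg'
        · obtain ⟨δ, hδ, hδ'⟩ := cm
          rw [hδ'] at ha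
          rcases Multiset.mem_add.1 ha with ha | ha
          · exact hMK a ha
          · exact (hδ a ha).trans hkK
        · obtain ⟨g₀, hg₀, hi⟩ := Multiset.exists_mem_of_rel_of_mem
            ((Multiset.rel_flip (r := inc k)).2 cG) hg'
          obtain ⟨δ, hδ, hδ'⟩ := hi
          rw [hδ'] at ha
          rcases Multiset.mem_add.1 ha with ha | ha
          · exact hG₀K g₀ hg₀ a ha
          · exact (hδ a ha).trans hkK
      have hadd : m' ::ₘ (G₀' + ext') = (m' ::ₘ G₀') + ext' := by rw [Multiset.cons_add]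
      rw [hadd] at c3 c4 ⊢
      refine IH k M' m' G₀' ext' U2 θ2 e6 cm cG ?_ ?_ ?_ ?_ hmem ?_
      · intro y hy
        apply c3
        rw [act_add, occurs_add]
        exact Or.inl hy
      · intro y hy
        apply c3
        rw [act_add, occurs_add]
        exact Or.inr hy
      · exact fun g' hg' => c4 g' (Multiset.mem_add.2 (Or.inl hg'))
      · exact fun g' hg' => c4 g' (Multiset.mem_add.2 (Or.inr hg'))
      · exact hcont.mono (hUU1.trans c1)
          (fun x hx => (c2 x (hUU1 hx)).trans (hθ1U x hx)) hkK.le ce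
  | var z r₀ N₁ hE hz hr =>
    set π : ℕ → Term ar := fun x => Term.var (x + N₀) with hπ
    set θ1 : ℕ → Term ar := fun x => if x < N₀ then θ x else if x = z + N₀ then
      Term.app f (fun i => (ts i).subst θ) else τ (x - N₀) with hθ1
    have hθ1U : ∀ x ∈ U, θ1 x = θ x := fun x hx => by simp [hθ1, hN₀ x hx]
    have hzU : z + N₀ ∉ U := fun h => by have := hN₀ _ h; omega
    have hθ1z : θ1 (z + N₀) = Term.app f (fun i => (ts i).subst θ) := by simp [hθ1]
    have hfresh : FreshVariant E U (Term.var (z + N₀)) (r₀.subst π) := by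
      refine ⟨Term.var z, r₀, fun x => x + N₀, hE, fun x y h => ?_, rfl, rfl, ?_⟩
      · simpa using h
      · rw [Finset.disjoint_left]
        intro x hxU hx
        have hlt := hN₀ x hxU
        have hge : N₀ ≤ x := by
          rcases Finset.mem_union.1 hx with hx | hx
          · simp only [Term.vars, Finset.mem_singleton] at hx
            omega
          · rw [Term.mem_vars_subst] at hx
            obtain ⟨y, _, hy⟩ := hx
            simp only [hπ, Term.vars, Finset.mem_singleton] at hy
            omega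
        omega
    refine Solv.lpVar hfresh heager hθ1U ?_
    set U1 : Finset ℕ := U ∪ ((Term.var (z + N₀) : Term ar).vars ∪ (r₀.subst π).vars)
      with hU1
    have hUU1 : U ⊆ U1 := Finset.subset_union_left
    rw [Sym2.eq_swap]
    have htsθ : (Term.app f ts).subst θ1 = Term.app f (fun i => (ts i).subst θ) := by
      simp only [Term.subst]
      congr 1; funext i
      exact Term.subst_congr fun x hx => hθ1U x (htsU i x hx)
    have hzts : z + N₀ ∉ (Term.app f ts).vars :=
      fun h => hzU (hsU _ (mem_vars_fill_of_mem h))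
    refine Solv.ve hzts (by rw [hθ1z, htsθ]; exact EqE.refl _) ?_
    -- the system after Variable Elimination
    have hrest : (act (G₀ + ext)).subst (Function.update Term.var (z + N₀) (Term.app f ts)) =
        act (G₀ + ext) := by
      apply sys_subst_update
      intro hocc
      rw [act_add, occurs_add] at hocc
      rcases hocc with hocc | hocc
      · exact hzU (hG₀U _ hocc)
      · exact hzU (heU _ hocc)
    have hfill : (C.fill (r₀.subst π)).subst (Function.update Term.var (z + N₀) (Term.app f ts)) =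
        C.fill ((r₀.subst π).subst (Function.update Term.var (z + N₀) (Term.app f ts))) := by
      apply fill_subst (s := Term.app f ts)
      intro x hx
      rw [Function.update_of_ne]
      rintro rfl
      exact hzU (hsU _ hx)
    have htt : t.subst (Function.update Term.var (z + N₀) (Term.app f ts)) = t := by
      apply Term.subst_id
      intro x hx
      rw [Function.update_of_ne]
      rintro rfl
      exact hzU (htU _ hx)
    set r2 : Term ar := (r₀.subst π).subst (Function.update Term.var (z + N₀) (Term.app f ts))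
      with hr2
    have hsysEq : Sys.subst (Function.update Term.var (z + N₀) (Term.app f ts))
        (s(C.fill (r₀.subst π), t) ::ₘ act (G₀ + ext)) = s(C.fill r2, t) ::ₘ act (G₀ + ext) := by
      unfold Sys.subst at hrest ⊢
      rw [Multiset.map_cons, hrest, Sym2.map_mk, hfill, htt]
    rw [hsysEq]
    -- the plan for the new right-hand side
    have hτ : ∀ i : Fin (ar f), τ (N₁ + i) = (ts i).subst θ := by
      intro i
      exact ((e3 i).var_inv).1.symm
    have hr2eq : r2 = (r₀.subst (Function.update Term.var z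
        (Term.app f (fun i : Fin (ar f) => Term.var (N₁ + (i : ℕ)))))).subst
        (fun y => if y < N₁ then π y else if h : y - N₁ < ar f then ts ⟨y - N₁, h⟩ else π y) := by
      rw [hr2, Term.subst_subst, Term.subst_subst]
      apply Term.subst_congr
      intro y hy
      have hyN := hr y hy
      by_cases hyz : y = z
      · subst hyz
        rw [Function.update_self]
        simp only [hπ, Term.subst, Function.update_self]
        congr 1; funext i
        rw [if_neg (by omega)]
        have : N₁ + (i : ℕ) - N₁ = i := by omega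
        simp [this]
      · rw [Function.update_of_ne hyz]
        simp only [hπ, Term.subst, if_pos hyN]
        rw [Function.update_of_ne]
        omega
    have hev2 : Ev E r2 θ1 w' N := by
      rw [hr2eq]
      apply e5.inst_exact
      intro y hy
      rw [Term.mem_vars_subst] at hy
      obtain ⟨v, hv, hy⟩ := hy
      have hvN := hr v hv
      rcases mem_vars_update hy with hy | ⟨rfl, hne⟩
      · rw [Term.mem_vars_app] at hy
        obtain ⟨i, hi⟩ := hy
        simp only [Term.vars, Finset.mem_singleton] at hi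
        subst hi
        rw [if_neg (by omega)]
        have e : N₁ + (i : ℕ) - N₁ = i := by omega
        have hlt : N₁ + (i : ℕ) - N₁ < ar f := by omega
        rw [dif_pos hlt]
        have e' : (⟨N₁ + (i : ℕ) - N₁, hlt⟩ : Fin (ar f)) = i := Fin.ext e
        rw [e', hτ i]
        exact Term.subst_congr fun x hx => hθ1U x (htsU i x hx)
      · simp only [if_pos hvN, hπ, Term.subst, hθ1]
        rw [if_neg (by omega), if_neg (by omega)]
        simp
    set m : Item ar := (C.fill r2, t, M' + M₂) with hm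
    have hvr2 : ∀ y ∈ r2.vars, y ∈ U1 := by
      intro y hy
      rw [hr2, Term.mem_vars_subst] at hy
      obtain ⟨v, hv, hy⟩ := hy
      rcases mem_vars_update hy with hy | ⟨rfl, _⟩
      · exact hUU1 (hsU _ (mem_vars_fill_of_mem hy))
      · exact Finset.mem_union_right _ (Finset.mem_union_right _ hv)
    have hfin := IH k M' m G₀ ext U1 θ1 e6 ⟨0, by simp, by simp [hm]⟩ (rel_inc_refl k G₀)
      ?_ (fun y hy => hUU1 (heU y hy)) ?_ (planned_congr heU hθ1U heP) ?_
      (hcont.mono hUU1 hθ1U hkK.le (rel_inc_refl k ext))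
    · rw [Multiset.cons_add, act_cons] at hfin
      exact hfin
    · intro y hy
      rw [act_cons, occurs_cons] at hy
      rcases hy with hy | hy | hy
      · rcases mem_vars_fill (Term.app f ts) hy with hy | hy
        · exact hvr2 y hy
        · exact hUU1 (hsU y hy)
      · exact hUU1 (htU y hy)
      · exact hUU1 (hG₀U y hy)
    · intro g' hg'
      rcases Multiset.mem_cons.1 hg' with rfl | hg'
      · exact ⟨w, M', M₂, e7 _ _ (fun x hx => hθ1U x (hsU x hx)) hev2,
          h2.congr fun x hx => hθ1U x (htU x hx), rfl⟩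
      · exact planned_congr hG₀U hθ1U hG₀P g' hg'
    · intro g' hg' a ha
      rcases Multiset.mem_cons.1 hg' with rfl | hg'
      · exact hMK a ha
      · exact hG₀K g' hg' a ha

end Pool.Agent.TH260.EU
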