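import Mathlib
import Pool.Agent.TH260.EU.Sim

set_option autoImplicit false

/-!
# Completeness of eager derivations in 𝒯
-/

namespace Pool.Agent.TH260.EU

universe u

variable {F : Type u} {ar : F → ℕ} {E : Set (Term ar × Term ar)}

theorem cnt_cons_zero {g : Item ar} {G : Multiset (Item ar)} (h : g.2.2 = 0) :
    cnt (g ::ₘ G) = cnt G := by
  unfold cnt
  rw [Multiset.countP_cons_of_neg]
  simpa using h

theorem cnt_le_card (G : Multiset (Item ar)) : cnt G ≤ Multiset.card G := Multiset.countP_le_card _ _

theorem cnt_eq_card {G : Multiset (Item ar)} (h : ∀ g ∈ G, g.2.2 ≠ 0) :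
    cnt G = Multiset.card G := Multiset.countP_eq_card.2 h

theorem tot_cons (g : Item ar) (G : Multiset (Item ar)) : tot (g ::ₘ G) = g.2.2 + tot G := by
  unfold tot
  rw [Multiset.map_cons, Multiset.sum_cons]

theorem sz_cons (θ : ℕ → Term ar) (g : Item ar) (G : Multiset (Item ar)) :
    sz θ (g ::ₘ G) = (g.1.subst θ).size + sz θ G := by
  unfold sz
  rw [Multiset.map_cons, Multiset.sum_cons]

theorem tot_rel {k : ℕ} {G H : Multiset (Item ar)} (h : Multiset.Rel (inc k) G H) :
    ∃ δ : Multiset ℕ, (∀ a ∈ δ, a < k) ∧ tot H = tot G + δ := by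
  induction h with
  | zero => exact ⟨0, by simp, by simp [tot]⟩
  | cons hab _ ih =>
    obtain ⟨δ, h1, h2⟩ := hab
    obtain ⟨δ', h3, h4⟩ := ih
    refine ⟨δ + δ', fun a ha => ?_, ?_⟩
    · rcases Multiset.mem_add.1 ha with ha | ha
      · exact h1 a ha
      · exact h3 a ha
    · rw [tot_cons, tot_cons, h2, h4]
      abel

theorem goal_inner (K : ℕ) (IHK : ∀ k < K, ∀ (G ext : Multiset (Item ar)) (U : Finset ℕ)
    (θ : ℕ → Term ar), Goal E k G ext U θ) :
    ∀ (c : ℕ) (O : Multiset ℕ) (n : ℕ) (G ext : Multiset (Item ar)) (U : Finset ℕ)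
      (θ : ℕ → Term ar), cnt G = c → tot G = O → sz θ G = n → Goal E K G ext U θ := by
  intro c
  induction c using Nat.strong_induction_on with
  | _ c IHc =>
  intro O
  induction O using (Multiset.wellFounded_isDershowitzMannaLT (α := ℕ)).induction with
  | _ O IHO =>
  intro n
  induction n using Nat.strong_induction_on with
  | _ n IHn =>
  intro G ext U θ hc hO hn
  by_cases hex : ∃ g ∈ G, g.2.2 = 0
  · -- an exact equation
    obtain ⟨g, hg, hg0⟩ := hex
    obtain ⟨G₀, rfl⟩ := Multiset.exists_cons_of_mem hg
    intro hGU heU hGP heP hGK hcont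
    have hcG₀ : cnt G₀ = c := by rw [← hc, cnt_cons_zero hg0]
    have hOG₀ : tot G₀ = O := by rw [← hO, tot_cons, hg0, zero_add]
    have hnG₀ : sz θ G₀ < n := by
      rw [← hn, sz_cons]
      have := Term.size_pos (g.1.subst θ)
      omega
    have hG₀P : ∀ g ∈ G₀, Planned E θ g := fun g hg => hGP g (Multiset.mem_cons_of_mem hg)
    have hG₀K : ∀ g ∈ G₀, ∀ a ∈ g.2.2, a < K := fun g hg => hGK g (Multiset.mem_cons_of_mem hg)
    have hG₀U : ∀ y, Occurs y (act G₀) → y ∈ U := fun y hy => hGU y (by
      rw [act_cons, occurs_cons]; exact Or.inr (Or.inr hy))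
    -- the equation holds exactly
    have hexact : g.1.subst θ = g.2.1.subst θ := by
      obtain ⟨w, M₁, M₂, h1, h2, h3⟩ := hGP g (Multiset.mem_cons_self _ _)
      rw [hg0] at h3
      have h3' := (add_eq_zero).1 h3.symm
      rw [← h1.eq_of_zero h3'.1, ← h2.eq_of_zero h3'.2]
    -- variable elimination
    have hve : ∀ (x : ℕ) (a : Term ar), s(g.1, g.2.1) = s(Term.var x, a) → a ≠ Term.var x →
        Solv E U (act (g ::ₘ G₀ + ext)) θ := by
      intro x a hxa hne
      have hxa' : θ x = a.subst θ := by
        rw [Sym2.eq_iff] at hxa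
        rcases hxa with ⟨e1, e2⟩ | ⟨e1, e2⟩
        · rw [e1, e2] at hexact; exact hexact
        · rw [e1, e2] at hexact; exact hexact.symm
      have hx : x ∉ a.vars := by
        intro hx
        rcases Term.size_subst θ hx with h | h
        · exact hne h
        · rw [hxa'] at h; exact lt_irrefl _ h
      refine goal_ve (L := 0) (Nat.zero_le K) hxa hx (by rw [hg0]; simp) ?_ hGU heU hGP heP hGK
        hcont
      intro upd hupd
      have hcost : ∀ g', (upd g').2.2 = g'.2.2 := by
        intro g'
        obtain ⟨δ, h1, h2⟩ := (hupd g').2.2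
        have : δ = 0 := Multiset.eq_zero_of_forall_notMem fun a ha => Nat.not_lt_zero _ (h1 a ha)
        rw [h2, this, add_zero]
      have hval : ∀ g', ((upd g').1).subst θ = g'.1.subst θ := by
        intro g'
        rw [(hupd g').1, Term.subst_subst]
        apply Term.subst_congr
        intro y _
        by_cases hy : y = x
        · subst hy
          rw [Function.update_self]; exact hxa'.symm
        · rw [Function.update_of_ne hy]; rfl
      have e1 : cnt (G₀.map upd) = cnt G₀ := by
        unfold cnt
        rw [Multiset.countP_map, Multiset.countP_eq_card_filter]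
        congr 1
        apply Multiset.filter_congr
        intro g' _
        rw [hcost]
      have e2 : tot (G₀.map upd) = tot G₀ := by
        unfold tot
        rw [Multiset.map_map]
        congr 1
        apply Multiset.map_congr rfl
        intro g' _
        exact hcost g'
      have e3 : sz θ (G₀.map upd) = sz θ G₀ := by
        unfold sz
        rw [Multiset.map_map]
        congr 1
        apply Multiset.map_congr rfl
        intro g' _
        simp only [Function.comp_apply, hval]
      exact IHn _ hnG₀ (G₀.map upd) (ext.map upd) U θ (by rw [e1, hcG₀]) (by rw [e2, hOG₀]) e3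
    obtain ⟨s, t, M⟩ := g
    simp only at hg0 hexact hve
    subst hg0
    by_cases hst : s = t
    · subst hst
      rw [Multiset.cons_add, act_cons]
      refine Solv.triv s ?_
      exact IHn _ hnG₀ G₀ ext U θ hcG₀ hOG₀ rfl hG₀U heU hG₀P heP hG₀K hcont
    · cases s with
      | var x => exact hve x t rfl (fun h => hst h.symm)
      | app f ss =>
        cases t with
        | var y => exact hve y _ Sym2.eq_swap hst
        | app h ts =>
          simp only [Term.subst, Term.app.injEq] at hexact
          obtain ⟨rfl, hexact⟩ := hexact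
          have hexact' := eq_of_heq hexact
          set D : Multiset (Item ar) :=
            (Finset.univ : Finset (Fin (ar f))).val.map (fun i => (ss i, ts i, 0)) with hD
          rw [Multiset.cons_add, act_cons]
          refine Solv.dec f ss ts ?_
          have hact : argEqs ss ts + act (G₀ + ext) = act (D + G₀ + ext) := by
            rw [act_add, act_add, act_add, hD, act_args, add_assoc]
          rw [hact]
          have hD0 : ∀ g ∈ D, g.2.2 = 0 := by
            intro g hg
            obtain ⟨i, _, rfl⟩ := Multiset.mem_map.1 hg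
            rfl
          have e1 : cnt (D + G₀) = cnt G₀ := by
            unfold cnt
            rw [Multiset.countP_add]
            have : Multiset.countP (fun g : Item ar => g.2.2 ≠ 0) D = 0 := by
              rw [Multiset.countP_eq_zero]
              intro g hg
              simpa using hD0 g hg
            rw [this, zero_add]
          have e2 : tot (D + G₀) = tot G₀ := by
            unfold tot
            rw [Multiset.map_add, Multiset.sum_add]
            have : (D.map (fun g => g.2.2)).sum = 0 := by
              rw [Multiset.sum_eq_zero_iff]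
              intro M hM
              obtain ⟨g, hg, rfl⟩ := Multiset.mem_map.1 hM
              exact hD0 g hg
            rw [this, zero_add]
          have e3 : sz θ (D + G₀) < n := by
            rw [← hn, sz_cons]
            unfold sz
            rw [Multiset.map_add, Multiset.sum_add]
            have h1 : (D.map (fun g => (g.1.subst θ).size)).sum =
                ∑ i, ((ss i).subst θ).size := by
              rw [hD, Multiset.map_map]
              rfl
            rw [h1]
            simp only [Term.subst, Term.size]
            omega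
          refine IHn _ e3 (D + G₀) ext U θ (by rw [e1, hcG₀]) (by rw [e2, hOG₀]) rfl ?_ heU ?_ heP
            ?_ hcont
          · intro y hy
            rw [act_add, occurs_add, hD, act_args, occurs_argEqs] at hy
            apply hGU
            rw [act_cons, occurs_cons]
            rcases hy with ⟨i, hy | hy⟩ | hy
            · exact Or.inl (Term.mem_vars_app.2 ⟨i, hy⟩)
            · exact Or.inr (Or.inl (Term.mem_vars_app.2 ⟨i, hy⟩))
            · exact Or.inr (Or.inr hy)
          · intro g hg
            rcases Multiset.mem_add.1 hg with hg | hg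
            · obtain ⟨i, _, rfl⟩ := Multiset.mem_map.1 hg
              refine ⟨(ss i).subst θ, 0, 0, Ev.exact _ _, ?_, by simp⟩
              have h5 : (ss i).subst θ = (ts i).subst θ := congrFun hexact' i
              rw [h5]
              exact Ev.exact _ _
            · exact hG₀P g hg
          · intro g hg a ha
            rcases Multiset.mem_add.1 hg with hg | hg
            · rw [hD0 g hg] at ha
              simp at ha
            · exact hG₀K g hg a ha
  · push Not at hex
    by_cases hvar : ∃ g ∈ G, ∃ (x : ℕ) (a : Term ar), s(g.1, g.2.1) = s(Term.var x, a) ∧ x ∉ a.vars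
    · -- Variable Elimination with a non-exact equation
      obtain ⟨g, hg, x, a, hxa, hx⟩ := hvar
      obtain ⟨G₀, rfl⟩ := Multiset.exists_cons_of_mem hg
      intro hGU heU hGP heP hGK hcont
      refine goal_ve (L := K) le_rfl hxa hx (hGK g (Multiset.mem_cons_self _ _)) ?_ hGU heU hGP
        heP hGK hcont
      intro upd _
      refine IHc (cnt (G₀.map upd)) ?_ _ _ (G₀.map upd) (ext.map upd) U θ rfl rfl rfl
      rw [← hc, cnt_eq_card hex, Multiset.card_cons]
      exact Nat.lt_succ_of_le ((cnt_le_card _).trans (by rw [Multiset.card_map]))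
    · push Not at hvar
      rcases Multiset.empty_or_exists_mem G with rfl | ⟨g, hg⟩
      · intro hGU heU hGP heP hGK hcont
        rw [zero_add]
        exact hcont U θ ext (Finset.Subset.refl U) (fun _ _ => rfl) heU heP (rel_inc_refl K ext)
      · obtain ⟨G₀, rfl⟩ := Multiset.exists_cons_of_mem hg
        intro hGU heU hGP heP hGK hcont
        obtain ⟨w, M₁, M₂, h1, h2, h3⟩ := hGP g (Multiset.mem_cons_self _ _)
        -- the main case, for both orientations
        have main : ∀ (s t : Term ar) (M₁ M₂ : Multiset ℕ), s(g.1, g.2.1) = s(s, t) →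
            Ev E s θ w M₁ → Ev E t θ w M₂ → g.2.2 = M₁ + M₂ → M₁ ≠ 0 →
            Solv E U (act (g ::ₘ G₀ + ext)) θ := by
          intro s t M₁ M₂ hst h1 h2 h3 hM₁
          refine goal_lp IHK hst h1 h2 h3 hM₁ ?_ ?_ hGU heU hGP heP hGK hcont
          · intro x hx
            refine hvar g (Multiset.mem_cons_self _ _) x s ?_
            rw [hst, hx, Sym2.eq_swap]
          · intro k M' m' G₀' ext' U' θ' hM' hm' hG₀'
            have hcard : cnt (m' ::ₘ G₀') ≤ c := by
              rw [← hc, cnt_eq_card hex, Multiset.card_cons, Multiset.card_eq_card_of_rel hG₀',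
                ← Multiset.card_cons m']
              exact cnt_le_card _
            rcases hcard.lt_or_eq with hlt | heq
            · exact IHc _ hlt _ _ (m' ::ₘ G₀') ext' U' θ' rfl rfl rfl
            · refine IHO _ ?_ _ (m' ::ₘ G₀') ext' U' θ' heq rfl rfl
              obtain ⟨δ, hδ, hδ'⟩ := hm'
              obtain ⟨δ', hδ₂, hδ₂'⟩ := tot_rel hG₀'
              refine ⟨M' + M₂ + tot G₀, δ + δ', {k}, by simp, ?_, ?_, ?_⟩
              · rw [tot_cons, hδ', hδ₂']
                abel
              · rw [← hO, tot_cons, h3, hM', ← Multiset.singleton_add]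
                abel
              · intro y hy
                refine ⟨k, by simp, ?_⟩
                rcases Multiset.mem_add.1 hy with hy | hy
                · exact hδ y hy
                · exact hδ₂ y hy
        by_cases hM₁ : M₁ = 0
        · have hM₂ : M₂ ≠ 0 := by
            intro hM₂
            apply hex g (Multiset.mem_cons_self _ _)
            rw [h3, hM₁, hM₂, add_zero]
          exact main g.2.1 g.1 M₂ M₁ Sym2.eq_swap h2 h1 (by rw [h3, add_comm]) hM₂
        · exact main g.1 g.2.1 M₁ M₂ rfl h1 h2 h3 hM₁

theorem goal_all (K : ℕ) : ∀ (G ext : Multiset (Item ar)) (U : Finset ℕ) (θ : ℕ → Term ar),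
    Goal E K G ext U θ := by
  induction K using Nat.strong_induction_on with
  | _ K IH =>
    intro G ext U θ
    exact goal_inner K IH _ _ _ G ext U θ rfl rfl rfl

theorem main (E : Set (Term ar × Term ar)) (S : Sys ar) (θ : ℕ → Term ar)
    (hθ : IsUnifier E θ S) (U : Finset ℕ) (hU : ∀ x, Occurs x S → x ∈ U) :
    ∃ (U' : Finset ℕ) (S' : Sys ar) (X : Finset ℕ) (t : ℕ → Term ar),
      Relation.ReflTransGen (Step E) (U, S) (U', S') ∧ IsSolved S' X t ∧
      ∃ η : ℕ → Term ar, ∀ x ∈ U, EqE E ((solvedSubst X t x).subst η) (θ x) := by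
  obtain ⟨θ₀, hθ₀, hplan⟩ := exists_plan E θ
  -- the items
  have hitems : ∃ G : Multiset (Item ar), act G = S ∧ ∀ g ∈ G, Planned E θ₀ g := by
    clear hU
    induction S using Multiset.induction_on with
    | empty => exact ⟨0, rfl, by simp⟩
    | cons e S ih =>
      obtain ⟨G, hG, hGP⟩ := ih fun s t h => hθ s t (Multiset.mem_cons_of_mem h)
      induction e with
      | h a b =>
        obtain ⟨w, h1, h2⟩ := hplan a b (hθ a b (Multiset.mem_cons_self _ _))
        obtain ⟨M₁, h1⟩ := Ev.of_ev h1
        obtain ⟨M₂, h2⟩ := Ev.of_ev h2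
        refine ⟨(a, b, M₁ + M₂) ::ₘ G, by rw [act_cons, hG], ?_⟩
        intro g hg
        rcases Multiset.mem_cons.1 hg with rfl | hg
        · exact ⟨w, M₁, M₂, h1, h2, rfl⟩
        · exact hGP g hg
  obtain ⟨G, rfl, hGP⟩ := hitems
  obtain ⟨K, hK⟩ := exists_lt_all (tot G)
  have hGK : ∀ g ∈ G, ∀ a ∈ g.2.2, a < K := by
    intro g hg a ha
    apply hK
    obtain ⟨G₀, rfl⟩ := Multiset.exists_cons_of_mem hg
    rw [tot_cons]
    exact Multiset.mem_add.2 (Or.inl ha)
  have hsolv : Solv E U (act (G + 0)) θ₀ := by
    refine goal_all K G 0 U θ₀ hU ?_ hGP (by simp) hGK ?_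
    · intro x hx
      obtain ⟨e, he, _⟩ := hx
      simp [act] at he
    · intro U' θ' ext' _ _ _ _ hrel
      rw [Multiset.rel_zero_left] at hrel
      subst hrel
      exact Solv.zero U' θ'
  rw [add_zero] at hsolv
  obtain ⟨U', X', t', θ', g1, g2, g3, g4⟩ := hsolv ∅ Term.var
    { XU := by simp
      tU := by simp
      AU := hU
      Xt := by simp
      XA := by simp
      eqE := by simp }
  have h0 : solvedSys ∅ (Term.var : ℕ → Term ar) + act G = act G := by
    simp [solvedSys]
  rw [h0] at g1
  refine ⟨U', _, X', t', g1, ⟨rfl, g2⟩, θ', fun x hx => ?_⟩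
  refine EqE.trans _ _ _ ?_ (hθ₀ x)
  rw [← g3 x hx]
  unfold solvedSubst
  split_ifs with hxX
  · exact EqE.symm _ _ (g4 x hxX)
  · exact EqE.refl _

end Pool.Agent.TH260.EU
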